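import Pool.Agent.Helper97.PD.Defs
import Pool.Agent.Helper13.ML.Fin2
import Pool.Agent.Helper13.MLT.GB

/-!
# Project PD, block P8, first half: the data of the counting problem, with a level `N`; the polynomial
-/

set_option autoImplicit false
set_option linter.unusedSectionVars false

namespace Pool.Agent.PD

open VC IntermediateField NumberField IsDedekindDomain Pool.Agent.SC
open Pool.Agent.L (Inert L0 MM SamePlace OverV)
open Pool.Agent.LN (Geo Act HasSec GoodCurve IsRam DecPt)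
open Pool.Agent.M (UR NN Moves OverPl inL0 lt_iff13 eq_iff13 eq_iffk13 exists_res13 exists_lift13
  mem_range13 inert_triv13 phi_mem59)
open Pool.Agent.HG (Pr nm Ctx Gd Cg Un)
open Pool.Agent.ML

/-- **The data of the counting problem**, with a level `N` (`ML.exists_datL`) -/
theorem exists_datLN {k K0 E U L : Type} [Field k] [NumberField k] [Field K0] [Field E] [Field U]
    [Algebra k K0] [Algebra k E] [Algebra E U] [Algebra K0 U] [Algebra k U] [IsAlgClosed E]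
    [Algebra.IsAlgebraic k E] [Field L]
    [NumberField L] [Algebra k L] [IsGalois k L] {f : Polynomial k} {ℓ : ℕ} {h : K0}
    {Φ₁ : (E ≃ₐ[k] E) →* (U ≃+* U)} {X : Ctx k L f} {ι : L →ₐ[k] E}
    {θ : Place E (L0 E K0 (U := U)) → L} {bt : L → Place E (L0 E K0 (U := U))}
    (hℓ : ℓ.Prime) (hmu : HasMu k ℓ) (hlM : ℓ ∣ X.M)
    (G : Gl ℓ h Φ₁ X ι θ bt) {m : ℕ}
    {zz : Place E (L0 E K0 (U := U)) → Place E (L0 E K0 (U := U)) → U} {Bad : Set (Pr k)}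
    (hBad : ∀ v ∈ Bad, ¬ Gd X.M v) {c : k} (hc : c ≠ 0)
    {δ : Place E (L0 E K0 (U := U)) → Place E (L0 E K0 (U := U)) → E}
    {Φ : (E ≃ₐ[k] E) →* (U ≃+* U)} {N : IntermediateField E U}
    (hδ : IntDatN ℓ h m Φ₁ zz Bad c Φ N δ) {O : Pr k → ValuationSubring E} {F : Pr k → (E ≃ₐ[k] E)}
    {p' f' : Pr k → ℕ} (hdec : ∀ v, Gd X.M v → DecPt v (O v) (F v) (p' v) (f' v) ∧
      (∀ z : L, ι z ∈ O v ↔ (X.P v).valuation L z ≤ 1) ∧ ∀ z : L, F v (ι z) = ι (X.F v z))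
    {S : Finset (Pr k × Fin ℓ)}
    (hS : ∀ v e, (v, e) ∈ S ↔ Gd X.M v ∧ ¬ ℓ ∣ (e : ℕ) ∧ Lab ℓ v (e : ℕ) c)
    {w : L → Fin ℓ → ℕ}
    (hw : ∀ x ∈ X.Ω, ∀ e : Fin ℓ, ¬ ℓ ∣ (e : ℕ) →
      (ℓ : ℤ) ∣ w x e * ord (bt x).ring (inL0 h) + (e : ℕ))
    [Nonempty (Place E (NN E K0 ℓ (U := U)))] :
    ∃ (D : L → L → L) (t : Pr k → L) (P : Pr k → Place E (NN E K0 ℓ (U := U))),
      DatL X ℓ ℓ c S w D t (fun v N x x' => sgn ℓ (Φ₁ (F v) ^ N) (P v) (zz (bt x) (bt x'))) ∧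
      ∀ v e, (v, e) ∈ S → OverPl (bt (t v)) (P v) ∧
        (∃ Q : Place E (NN E K0 (ℓ ^ m) (U := U)), OverPl (P v) Q ∧ Moves (Φ₁ (F v)) _ Q Q) ∧
        OptAt Φ N (bt (t v)) v := by
  have hn : 0 < ℓ := hℓ.pos
  have hln : ℓ ∣ ℓ := dvd_rfl
  classical
  -- the numbers `D`
  have hDex : ∀ x x' : L, ∃ y : L, x ∈ X.Ω → x' ∈ X.Ω → x ≠ x' →
      ι y = δ (bt x) (bt x') ^ ℓ := by
    intro x x'
    by_cases hx : x ∈ X.Ω ∧ x' ∈ X.Ω ∧ x ≠ x'
    · obtain ⟨hx, hx', hne⟩ := hx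
      have hb := G.bt_mem x hx
      have hb' := G.bt_mem x' hx'
      have hbb : bt x ≠ bt x' := fun h1 => hne (by rw [← G.θ_bt x hx, h1, G.θ_bt x' hx'])
      obtain ⟨y, hy⟩ := mem_range13 ι (y := δ (bt x) (bt x') ^ ℓ) fun g hg =>
        hδ.eqv g _ _ _ _ hb hb' hbb ((G.act g _ _ hb hb).2 (hg _)) ((G.act g _ _ hb' hb').2 (hg _))
      exact ⟨y, fun _ _ _ => hy⟩
    · exact ⟨0, fun h1 h2 h3 => absurd ⟨h1, h2, h3⟩ hx⟩
  choose D hDy using hDex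
  have hbne : ∀ {x x' : L}, x ∈ X.Ω → x' ∈ X.Ω → x ≠ x' → bt x ≠ bt x' :=
    fun hx hx' hne h1 => hne (by rw [← G.θ_bt _ hx, h1, G.θ_bt _ hx'])
  have hδ0 : ∀ {x x' : L}, x ∈ X.Ω → x' ∈ X.Ω → x ≠ x' → δ (bt x) (bt x') ≠ 0 :=
    fun hx hx' hne => hδ.ne _ _ (G.bt_mem _ hx) (G.bt_mem _ hx') (hbne hx hx' hne)
  -- the local data
  have hloc : ∀ v : Pr k, ∃ (t : L) (P : Place E (NN E K0 ℓ (U := U))), ∀ e, (v, e) ∈ S →
      t ∈ X.Ω ∧ X.F v t = t ∧ OverPl (bt t) P ∧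
      (∃ Q : Place E (NN E K0 (ℓ ^ m) (U := U)), OverPl P Q ∧ Moves (Φ₁ (F v)) _ Q Q) ∧
      (∀ τ : E ≃ₐ[k] E, Inert (O v) τ.toRingEquiv → ∀ d : E, d ^ ℓ = algebraMap k E c → τ d ≠ d →
        ∃ ω : E, ω ^ ℓ = 1 ∧ ω ^ ord (bt t).ring (inL0 h) * τ d = d ∧
          ∀ b b', BPl ℓ h b → BPl ℓ h b' → b ≠ b' →
            (b = bt t → τ (δ b b') = ω * δ b b') ∧ (b' = bt t → ω * τ (δ b b') = δ b b') ∧
            (b ≠ bt t → b' ≠ bt t → τ (δ b b') = δ b b')) ∧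
      (∀ b b', BPl ℓ h b → BPl ℓ h b' → b ≠ b' → b ≠ bt t → b' ≠ bt t → ∀ N : ℕ,
        Moves (Φ₁ (F v) ^ N) _ b b → Moves (Φ₁ (F v) ^ N) _ b' b' →
        (F v ^ N) (δ b b') =
          algebraMap k E ((sgn (k := k) ℓ (Φ₁ (F v) ^ N) P (zz b b') : kˣ) : k) * δ b b') ∧
      OptAt Φ N (bt t) v := by
    intro v
    by_cases hv : ∃ e, (v, e) ∈ S
    · obtain ⟨e, hv⟩ := hv
      obtain ⟨hg, hne, hlab⟩ := (hS v e).1 hv
      have hram : IsRam ℓ v c := (isRam_iff_lab hn hc hlab hln).2 hne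
      obtain ⟨h1, h2, h3⟩ := hdec v hg
      obtain ⟨b₀, P, Q, hb, hP, hQ, hm, hmQ, -, hτ, hs, QN, hQN1, hQN2, hQN3⟩ :=
        hδ.odd v (fun h4 => hBad v h4 hg) hram (O v) (F v) (p' v) (f' v) h1
      refine ⟨θ b₀, P, fun e' _ => ?_⟩
      have e : bt (θ b₀) = b₀ := G.bt_θ b₀ hb
      rw [e]
      refine ⟨G.mem b₀ hb, ?_, hP, ⟨Q, hQ, hmQ⟩, hτ, hs,
        ⟨O v, F v, p' v, f' v, h1, QN, hQN1, hQN2, hQN3⟩⟩
      have h5 := (G.act (F v) b₀ b₀ hb hb).1 hm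
      rw [h3] at h5
      exact ι.injective h5
    · exact ⟨0, Classical.arbitrary _, fun e h1 => absurd ⟨e, h1⟩ hv⟩
  choose t P hl using hloc
  refine ⟨D, t, P, ?_, fun v e hv => ?_⟩
  swap
  · exact ⟨(hl v e hv).2.2.1, (hl v e hv).2.2.2.1, (hl v e hv).2.2.2.2.2.2⟩
  -- the action of the test element
  have hodd : ∀ {p : ℕ} {v : Pr k}, p.Prime → ¬ p ∣ X.M → (p : 𝓞 k) ∈ v.asIdeal → ∀ e,
      (v, e) ∈ S → ∃ (τ : E ≃ₐ[k] E) (s ζ : E), Inert (O v) τ.toRingEquiv ∧ s ^ ℓ = (p : E) ∧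
        τ s = ζ * s ∧ IsPrimitiveRoot ζ ℓ ∧ ∀ b b', BPl ℓ h b → BPl ℓ h b' → b ≠ b' →
          (b = bt (t v) → τ (δ b b') = ζ ^ (w (t v) e : ℤ) * δ b b') ∧
          (b' = bt (t v) → τ (δ b b') = ζ ^ (-(w (t v) e : ℤ)) * δ b b') ∧
          (b ≠ bt (t v) → b' ≠ bt (t v) → τ (δ b b') = δ b b') := by
    intro p v hp hpM hpv e hv
    obtain ⟨hg, hne, hlab⟩ := (hS v e).1 hv
    obtain ⟨h1, h2, h3⟩ := hdec v hg
    obtain ⟨τ, s, ζ, hτ, hs, hζ, hprim⟩ := exists_tau X hℓ hp hpM hpv h1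
    refine ⟨τ, s, ζ, hτ, hs, hζ, hprim, ?_⟩
    have hζ0 : ζ ≠ 0 := hprim.ne_zero hℓ.ne_zero
    obtain ⟨d, hd⟩ := IsAlgClosed.exists_pow_nat_eq (algebraMap k E c) hℓ.pos
    have hd0 : d ≠ 0 := by
      rintro rfl
      rw [zero_pow hℓ.ne_zero] at hd
      exact (map_ne_zero _).2 hc hd.symm
    obtain ⟨a, ha, hna⟩ := unif_of_lab X hp hpM hpv hc hlab
    have hla : (ℓ : ℤ) ∣ a + (e : ℕ) := (Int.natCast_dvd_natCast.2 hln).trans hna
    have htk := tau_k X ι hℓ hlM hp hpM hpv h1 h2 G.gen hτ hs hζ hd ha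
    have hτd : τ d ≠ d := by
      intro h4
      rw [h4] at htk
      have h5 : ζ ^ a = 1 := by
        apply mul_left_cancel₀ hd0
        rw [htk, mul_one]
      have h6 := (hprim.zpow_eq_one_iff_dvd _).1 h5
      apply hne
      have h7 : (ℓ : ℤ) ∣ ((e : ℕ) : ℤ) := (dvd_add_right h6).1 hla
      exact_mod_cast h7
    obtain ⟨ω, hω, hωd, hωb⟩ := (hl v e hv).2.2.2.2.1 τ hτ d hd hτd
    have hτd0 : τ d ≠ 0 := (map_ne_zero _).2 hd0
    obtain ⟨o, ho⟩ : ∃ o : ℤ, o = ord (bt (t v)).ring (inL0 h) := ⟨_, rfl⟩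
    rw [← ho] at hωd
    have hoz : ω ^ o = ζ ^ a := by
      apply mul_right_cancel₀ hτd0
      rw [hωd, mul_comm, htk]
    have hNe : NeZero ℓ := ⟨hℓ.ne_zero⟩
    obtain ⟨i, -, hi⟩ := hprim.eq_pow_of_pow_eq_one hω
    have hBt : ¬ (ℓ : ℤ) ∣ o := by
      rw [ho]
      exact G.bt_mem _ (hl v e hv).1
    have hwo := hw _ (hl v e hv).1 e hne
    rw [← ho] at hwo
    have hiw : (ℓ : ℤ) ∣ (i : ℤ) - w (t v) e := by
      have h4 : ζ ^ ((i : ℤ) * o - a) = 1 := by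
        rw [zpow_sub₀ hζ0, zpow_mul, zpow_natCast, hi, hoz, div_self (zpow_ne_zero _ hζ0)]
      have h5 := (hprim.zpow_eq_one_iff_dvd _).1 h4
      have h6 : (ℓ : ℤ) ∣ ((i : ℤ) - w (t v) e) * o := by
        have e1 : ((i : ℤ) - w (t v) e) * o = ((i : ℤ) * o - a) + (a + (e : ℕ)) -
          (w (t v) e * o + (e : ℕ)) := by ring
        rw [e1]
        exact dvd_sub (dvd_add h5 hla) hwo
      rcases (Nat.prime_iff_prime_int.1 hℓ).dvd_or_dvd h6 with h7 | h7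
      · exact h7
      · exact absurd h7 hBt
    have hωw : ω = ζ ^ (w (t v) e : ℤ) := by
      have h4 : ζ ^ ((i : ℤ) - w (t v) e) = 1 := (hprim.zpow_eq_one_iff_dvd _).2 hiw
      rw [zpow_sub₀ hζ0, div_eq_one_iff_eq (zpow_ne_zero _ hζ0), zpow_natCast ζ i, hi] at h4
      exact h4
    have hω0 : ω ≠ 0 := by
      rw [hωw]
      exact zpow_ne_zero _ hζ0
    intro b b' hb hb' hbb
    obtain ⟨g1, g2, g3⟩ := hωb b b' hb hb' hbb
    refine ⟨fun h4 => ?_, fun h4 => ?_, g3⟩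
    · rw [g1 h4, hωw]
    · rw [zpow_neg, ← hωw]
      have h5 := g2 h4
      calc τ (δ b b') = ω⁻¹ * (ω * τ (δ b b')) := by rw [← mul_assoc, inv_mul_cancel₀ hω0, one_mul]
        _ = ω⁻¹ * δ b b' := by rw [h5]
  refine ⟨hc, hS, ?_, ?_, fun v e hv => (hl v e hv).1, fun v e hv => (hl v e hv).2.1, ?_, ?_, ?_,
    ?_⟩
  · intro x hx x' hx' hne h0
    have h1 := hDy x x' hx hx' hne
    rw [h0, map_zero] at h1
    exact pow_ne_zero _ (hδ0 hx hx' hne) h1.symm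
  · intro σ x hx x' hx' hne
    obtain ⟨g, hg⟩ := exists_lift13 ι σ
    have hx1 := X.conj_mem hx σ
    have hx1' := X.conj_mem hx' σ
    refine ι.injective (?_ : ι (σ (D x x')) = ι (D (σ x) (σ x')))
    rw [hDy _ _ hx1 hx1' (fun h' => hne (σ.injective h')), ← hg, hDy x x' hx hx' hne]
    refine hδ.eqv g _ _ _ _ (G.bt_mem x hx) (G.bt_mem x' hx') (hbne hx hx' hne) ?_ ?_
    · rw [G.act g _ _ (G.bt_mem x hx) (G.bt_mem _ hx1), G.θ_bt x hx, G.θ_bt _ hx1]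
      exact hg x
    · rw [G.act g _ _ (G.bt_mem x' hx') (G.bt_mem _ hx1'), G.θ_bt x' hx', G.θ_bt _ hx1']
      exact hg x'
  · intro p v hp hpM hpv hv x hx x' hx' hne
    have hg : Gd X.M v := ⟨p, hp, hpM, hpv⟩
    obtain ⟨h1, h2, h3⟩ := hdec v hg
    obtain ⟨τ, s, ζ, hτ, hs, hζ, hprim⟩ := exists_tau X hℓ hp hpM hpv h1
    obtain ⟨e, hlab⟩ := exists_lab v hn hc
    have hle : ℓ ∣ (e : ℕ) := by
      by_contra hcon
      exact hv e ((hS v e).2 ⟨hg, hcon, hlab⟩)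
    obtain ⟨a, ha, hna⟩ := unif_of_lab X hp hpM hpv hc hlab
    have hla : (ℓ : ℤ) ∣ a := by
      have h4 : (ℓ : ℤ) ∣ a + (e : ℕ) := (Int.natCast_dvd_natCast.2 hln).trans hna
      exact (dvd_add_left (by exact_mod_cast hle)).1 h4
    have hza : ζ ^ a = 1 := (hprim.zpow_eq_one_iff_dvd _).2 hla
    refine vz_of X ι hℓ hlM hp hpM hpv h2 G.gen hτ hs hζ hprim (hδ0 hx hx' hne)
      (hDy x x' hx hx' hne) ?_
    rw [zpow_zero, one_mul]
    refine hδ.even v (fun h4 => hBad v h4 hg) (O v) (F v) (p' v) (f' v) h1 τ hτ ?_ _ _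
      (G.bt_mem x hx) (G.bt_mem x' hx') (hbne hx hx' hne)
    intro d hd
    have htk := tau_k X ι hℓ hlM hp hpM hpv h1 h2 G.gen hτ hs hζ hd ha
    rwa [hza, mul_one] at htk
  · intro p v hp hpM hpv e hv x hx x' hx' hne hxt hxt'
    have hg : Gd X.M v := ⟨p, hp, hpM, hpv⟩
    obtain ⟨h1, h2, h3⟩ := hdec v hg
    obtain ⟨τ, s, ζ, hτ, hs, hζ, hprim, hb⟩ := hodd hp hpM hpv e hv
    refine vz_of X ι hℓ hlM hp hpM hpv h2 G.gen hτ hs hζ hprim (hδ0 hx hx' hne)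
      (hDy x x' hx hx' hne) ?_
    rw [zpow_zero, one_mul]
    exact (hb _ _ (G.bt_mem x hx) (G.bt_mem x' hx') (hbne hx hx' hne)).2.2
      (hbne hx (hl v e hv).1 hxt) (hbne hx' (hl v e hv).1 hxt')
  · intro p v hp hpM hpv e hv x hx hxt
    have hg : Gd X.M v := ⟨p, hp, hpM, hpv⟩
    obtain ⟨h1, h2, h3⟩ := hdec v hg
    obtain ⟨τ, s, ζ, hτ, hs, hζ, hprim, hb⟩ := hodd hp hpM hpv e hv
    have ht := (hl v e hv).1
    constructor
    · refine vz_of X ι hℓ hlM hp hpM hpv h2 G.gen hτ hs hζ hprim (hδ0 ht hx hxt.symm)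
        (hDy _ x ht hx hxt.symm) ?_
      exact (hb _ _ (G.bt_mem _ ht) (G.bt_mem x hx) (hbne ht hx hxt.symm)).1 rfl
    · refine vz_of X ι hℓ hlM hp hpM hpv h2 G.gen hτ hs hζ hprim (hδ0 hx ht hxt)
        (hDy x _ hx ht hxt) ?_
      exact (hb _ _ (G.bt_mem x hx) (G.bt_mem _ ht) (hbne hx ht hxt)).2.1 rfl
  · intro p v hp hpM hpv e hv x hx x' hx' hne hxt hxt' N hN hFx hFx' a ha
    have hg : Gd X.M v := ⟨p, hp, hpM, hpv⟩
    obtain ⟨h1, h2, h3⟩ := hdec v hg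
    refine signL X ι hℓ hlM hp hpM hpv h1 h2 hmu hN (hDy x x' hx hx' hne) ha ?_
    have hpow : ∀ (N : ℕ) (z : L), (F v ^ N) (ι z) = ι ((X.F v ^ N) z) := by
      intro N
      induction N with
      | zero => intro z; rfl
      | succ N ih =>
        intro z
        rw [pow_succ, AlgEquiv.mul_apply, h3, ih, pow_succ, AlgEquiv.mul_apply]
    refine (hl v e hv).2.2.2.2.2.1 _ _ (G.bt_mem x hx) (G.bt_mem x' hx') (hbne hx hx' hne)
      (hbne hx (hl v e hv).1 hxt) (hbne hx' (hl v e hv).1 hxt') N ?_ ?_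
    · rw [← map_pow, G.act _ _ _ (G.bt_mem x hx) (G.bt_mem x hx), G.θ_bt x hx, hpow, hFx]
    · rw [← map_pow, G.act _ _ _ (G.bt_mem x' hx') (G.bt_mem x' hx'), G.θ_bt x' hx', hpow, hFx']

/-- The branch points and the roots of `f` (`ML.GlE` without `noroot`). -/
structure GlP {k K0 E U : Type} [Field k] [Field K0] [Field E] [Field U] [Algebra k K0]
    [Algebra k E] [Algebra E U] [Algebra K0 U] [Algebra k U] (ℓ : ℕ) (h : K0) (r : U)
    (f : Polynomial k) (θ : Place E (L0 E K0 (U := U)) → E) : Prop where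
  sep : f.Separable
  deg : f.natDegree = Nat.card {b : Place E (L0 E K0 (U := U)) // BPl ℓ h b}
  root : ∀ b, BPl ℓ h b → Polynomial.aeval (θ b) f = 0
  ex : ∀ x : E, Polynomial.aeval x f = 0 → ∃ b, BPl ℓ h b ∧ θ b = x
  inj : ∀ b b', BPl ℓ h b → BPl ℓ h b' → θ b = θ b' → b = b'
  act : ∀ (c : k) (Φ : (E ≃ₐ[k] E) →* (U ≃+* U)), c ≠ 0 → Act (K0 := K0) ℓ r c Φ →
    ∀ (g : E ≃ₐ[k] E) b b', BPl ℓ h b → BPl ℓ h b' → (Moves (Φ g) _ b b' ↔ g (θ b) = θ b')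
  ord : ∀ (g : E ≃ₐ[k] E) b b', BPl ℓ h b → BPl ℓ h b' → g (θ b) = θ b' →
    ord b.ring (inL0 h) = ord b'.ring (inL0 h)

theorem exists_glP (hNR : StmtNR) (hFB : M.StmtFB) {k K0 E U : Type} [Field k] [NumberField k]
    [Field K0] [Field E] [Field U] [Algebra k K0]
    [Algebra k E] [Algebra E U] [Algebra K0 U] [Algebra k U] [IsScalarTower k E U]
    [IsScalarTower k K0 U] {ℓ : ℕ} (hℓ : ℓ.Prime) (hmu : HasMu k ℓ)
    {h : K0} {r : U} (G : Geo k K0 E U ℓ h r)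
    {c₀ : k} {Φ₀ : (E ≃ₐ[k] E) →* (U ≃+* U)} (hc₀ : c₀ ≠ 0) (hA₀ : Act (K0 := K0) ℓ r c₀ Φ₀) :
    ∃ (f : Polynomial k) (θ : Place E (L0 E K0 (U := U)) → E), GlP ℓ h r f θ := by
  classical
  have hclE : IsAlgClosed E := G.clE
  have halg : Algebra.IsAlgebraic k E := G.algE
  obtain ⟨hfin, hperm⟩ := hNR k K0 E U ℓ ℓ h r hℓ.pos hℓ dvd_rfl hmu G
  obtain ⟨hp1, hp2, hp3, hp4, hfix⟩ := hperm c₀ Φ₀ hc₀ hA₀
  let B := {b : Place E (L0 E K0 (U := U)) // BPl ℓ h b}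
  have hBf : Finite B := hfin.to_subtype
  choose act hact hact' using hp1
  have hBPl : ∀ (g : E ≃ₐ[k] E) (b : Place E (L0 E K0 (U := U))), BPl ℓ h b → BPl ℓ h (act g b) := by
    intro g b hb
    unfold BPl at hb ⊢
    rw [← hp2 g b _ (hact g b)]
    exact hb
  -- the action
  have hL0 : ∀ (g : E ≃ₐ[k] E) (x : U), x ∈ L0 E K0 (U := U) → Φ₀ g x ∈ L0 E K0 (U := U) :=
    fun g x hx => phi_mem59 (toL hA₀) g hx
  have hone : ∀ b, act 1 b = b := by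
    intro b
    refine (hact' 1 b b ?_).symm
    intro x hx hx'
    have h1 : Φ₀ 1 x = x := by rw [map_one]; rfl
    simp only [h1]
  have hmul : ∀ g g' b, act (g * g') b = act g (act g' b) := by
    intro g g' b
    refine (hact' (g * g') b _ ?_).symm
    intro x hx hx'
    have h1 : Φ₀ (g * g') x = Φ₀ g (Φ₀ g' x) := by rw [map_mul]; rfl
    have h2 := hact g' b x hx (hL0 g' x hx)
    have h3 := hact g (act g' b) (Φ₀ g' x) (hL0 g' x hx) (hL0 g _ (hL0 g' x hx))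
    rw [h2, h3]
    simp only [h1]
  let _ : MulAction (E ≃ₐ[k] E) B :=
    { smul := fun g b => ⟨act g b.1, hBPl g b.1 b.2⟩
      one_smul := fun b => Subtype.ext (hone b.1)
      mul_smul := fun g g' b => Subtype.ext (hmul g g' b.1) }
  have hsm : ∀ (g : E ≃ₐ[k] E) (b : B), ((g • b : B) : Place E (L0 E K0 (U := U))) = act g b.1 :=
    fun g b => rfl
  obtain ⟨f, θ0, hsep, hdeg, hinj, hroot, hθ⟩ := hFB k E B fun b => by
    obtain ⟨L, hL, hLb⟩ := hp4 b.1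
    exact ⟨L, hL, fun g hg => Subtype.ext (hact' g b.1 b.1 (hLb g hg)).symm⟩
  have hf0 : f ≠ 0 := hsep.ne_zero
  let θ : Place E (L0 E K0 (U := U)) → E := fun b => if hb : BPl ℓ h b then θ0 ⟨b, hb⟩ else 0
  have hθe : ∀ b (hb : BPl ℓ h b), θ b = θ0 ⟨b, hb⟩ := fun b hb => dif_pos hb
  have hact0 : ∀ (g : E ≃ₐ[k] E) b b', BPl ℓ h b → BPl ℓ h b' →
      (Moves (Φ₀ g) _ b b' ↔ g (θ b) = θ b') := by
    intro g b b' hb hb'
    rw [hθe b hb, hθe b' hb', hθ]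
    constructor
    · intro h1
      have h2 := hact' g b b' h1
      congr 1
      exact Subtype.ext h2.symm
    · intro h1
      have h2 : act g b = b' := congrArg Subtype.val (hinj h1)
      rw [← h2]
      exact hact g b
  refine ⟨f, θ, hsep, hdeg, ?_, ?_, ?_, ?_, ?_⟩
  · intro b hb
    rw [hθe b hb]
    exact (hroot _).2 ⟨_, rfl⟩
  · intro x hx
    obtain ⟨b, hb⟩ := (hroot x).1 hx
    exact ⟨b.1, b.2, by rw [hθe b.1 b.2]; exact hb⟩
  · intro b b' hb hb' hbb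
    rw [hθe b hb, hθe b' hb'] at hbb
    exact congrArg Subtype.val (hinj hbb)
  · intro c Φ hc hA g b b' hb hb'
    rw [← hp3 c Φ hc hA g b b']
    exact hact0 g b b' hb hb'
  · intro g b b' hb hb' hbb
    exact hp2 g b b' ((hact0 g b b' hb hb').2 hbb)

section glL

variable {k K0 E U : Type} [Field k] [NumberField k] [Field K0] [Field E] [IsAlgClosed E]
  [Field U] [Algebra k K0] [Algebra k E] [Algebra E U] [Algebra K0 U] [Algebra k U]

/-- the branch points and the roots in the splitting field -/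
theorem exists_glPL {ℓ : ℕ} {h : K0} {r : U} {f : Polynomial k} {θ : Place E (L0 E K0 (U := U)) → E}
    (Gl' : GlP ℓ h r f θ) [NumberField f.SplittingField] [IsGalois k f.SplittingField]
    (ι : f.SplittingField →ₐ[k] E) (b₀ : Place E (L0 E K0 (U := U))) :
    ∃ (θL : Place E (L0 E K0 (U := U)) → f.SplittingField)
      (bt : f.SplittingField → Place E (L0 E K0 (U := U))),
      (∀ b, BPl ℓ h b → ι (θL b) = θ b) ∧
      ∀ (X : Ctx k f.SplittingField f) (c : k) (Φ : (E ≃ₐ[k] E) →* (U ≃+* U)), c ≠ 0 →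
        Act (K0 := K0) ℓ r c Φ → Gl ℓ h Φ X ι θL bt := by
  classical
  have hsplit : (f.map (algebraMap k f.SplittingField)).Splits := Polynomial.SplittingField.splits f
  have h1 : ∀ b : Place E (L0 E K0 (U := U)), ∃ x : f.SplittingField, BPl ℓ h b →
      x ∈ f.rootSet f.SplittingField ∧ ι x = θ b := by
    intro b
    by_cases hb : BPl ℓ h b
    · have h1 : θ b ∈ f.rootSet E := by
        rw [Polynomial.mem_rootSet]
        exact ⟨Gl'.sep.ne_zero, Gl'.root b hb⟩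
      rw [← Polynomial.Splits.image_rootSet hsplit ι] at h1
      obtain ⟨x, hx, hx'⟩ := h1
      exact ⟨x, fun _ => ⟨hx, hx'⟩⟩
    · exact ⟨0, fun h => absurd h hb⟩
  choose θL hθL using h1
  have h2 : ∀ x : f.SplittingField, ∃ b : Place E (L0 E K0 (U := U)),
      x ∈ f.rootSet f.SplittingField → BPl ℓ h b ∧ θ b = ι x := by
    intro x
    by_cases hx : x ∈ f.rootSet f.SplittingField
    · obtain ⟨b, hb⟩ := Gl'.ex (ι x) (by
        rw [Polynomial.mem_rootSet] at hx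
        rw [Polynomial.aeval_algHom_apply, hx.2, map_zero])
      exact ⟨b, fun _ => hb⟩
    · exact ⟨b₀, fun h => absurd h hx⟩
  choose bt hbt using h2
  refine ⟨θL, bt, fun b hb => (hθL b hb).2, fun X c Φ hc hA => ⟨?_, ?_, ?_, ?_, ?_, ?_⟩⟩
  · intro b hb
    rw [X.mem_Ω]
    exact (hθL b hb).1
  · intro x hx
    rw [X.mem_Ω] at hx
    exact (hbt x hx).1
  · intro b hb
    have h3 := hθL b hb
    have h4 := hbt _ h3.1
    exact Gl'.inj _ _ h4.1 hb (h4.2.trans h3.2)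
  · intro x hx
    rw [X.mem_Ω] at hx
    have h3 := hbt x hx
    have h4 := hθL _ h3.1
    exact ι.injective (h4.2.trans h3.2)
  · intro g b b' hb hb'
    rw [Gl'.act c Φ hc hA g b b' hb hb', (hθL b hb).2, (hθL b' hb').2]
  · intro σ hσ
    have h3 : Algebra.adjoin k (f.rootSet f.SplittingField) = ⊤ :=
      Polynomial.SplittingField.adjoin_rootSet f
    have h4 : (σ : f.SplittingField →ₐ[k] f.SplittingField) = AlgHom.id k f.SplittingField := by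
      refine AlgHom.ext_of_adjoin_eq_top h3 fun x hx => ?_
      exact hσ x ((X.mem_Ω x).2 hx)
    ext x
    exact DFunLike.congr_fun h4 x

end glL

/-- the number of the branch points of a double cover is even -/
theorem even_of {k K0 E U : Type} [Field k] [NumberField k] [Field K0] [Field E] [Field U]
    [Algebra k K0] [Algebra k E] [Algebra E U] [Algebra K0 U] [Algebra k U] [IsScalarTower k E U]
    [IsScalarTower k K0 U] {ℓ : ℕ} (hℓ : ℓ = 2) {h : K0} {r : U} (G : Geo k K0 E U ℓ h r) :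
    Even (Nat.card {b : Place E (L0 E K0 (U := U)) // BPl ℓ h b}) := by
  classical
  subst hℓ
  by_cases hfin : {b : Place E (L0 E K0 (U := U)) | BPl 2 h b}.Finite
  swap
  · have h1 : Infinite {b : Place E (L0 E K0 (U := U)) // BPl 2 h b} :=
      Set.infinite_coe_iff.2 hfin
    rw [Nat.card_eq_zero_of_infinite]
    exact Even.zero
  have h1 := MLT.sum_ord Nat.prime_two G hfin.toFinset fun b => by
    rw [Set.Finite.mem_toFinset]
    rfl
  have h2 : ∀ b ∈ hfin.toFinset, ((ord b.ring (inL0 h) : ℤ) : ZMod 2) = 1 := by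
    intro b hb
    rw [Set.Finite.mem_toFinset] at hb
    have h3 : ¬ (2 : ℤ) ∣ ord b.ring (inL0 h) := hb
    have h4 : ((ord b.ring (inL0 h) : ℤ) : ZMod 2) ≠ 0 := fun h5 =>
      h3 ((ZMod.intCast_zmod_eq_zero_iff_dvd _ 2).1 h5)
    revert h4
    generalize ((ord b.ring (inL0 h) : ℤ) : ZMod 2) = a
    revert a
    decide
  rw [Finset.sum_congr rfl h2, Finset.sum_const, nsmul_eq_mul, mul_one] at h1
  have h3 : Nat.card {b : Place E (L0 E K0 (U := U)) // BPl 2 h b} = hfin.toFinset.card := by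
    rw [← Set.ncard_eq_toFinset_card _ hfin]
    rfl
  rw [h3]
  exact (ZMod.natCast_eq_zero_iff_even).1 h1

end Pool.Agent.PD
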