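import Pool.Agent.Helper13.PD.AN1

/-!
# Project PD, block P8: the roots in `k` and the set `R`
-/

set_option autoImplicit false
set_option linter.unusedSectionVars false

namespace Pool.Agent.PD

open VC IntermediateField NumberField IsDedekindDomain Pool.Agent.SC
open Pool.Agent.L (Inert L0 MM SamePlace OverV)
open Pool.Agent.LN (Geo Act HasSec GoodCurve IsRam DecPt)
open Pool.Agent.M (UR NN Moves OverPl inL0 exists_lift13)
open Pool.Agent.HG (Pr nm Ctx Gd Cg Un)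
open Pool.Agent.ML

section rat

variable {k K0 E U : Type} [Field k] [NumberField k] [Field K0] [Field E] [IsAlgClosed E]
  [Field U] [Algebra k K0] [Algebra k E] [Algebra.IsAlgebraic k E] [Algebra E U] [Algebra K0 U]
  [Algebra k U]
  {ℓ : ℕ} {h : K0} {r : U} {f : Polynomial k} {θ : Place E (L0 E K0 (U := U)) → E}
  {R : Finset (Place E (L0 E K0 (U := U)))}

/-- the branch place of a root in `k` is in `R` -/
theorem rat_mem (Gl' : GlP ℓ h r f θ) (hR : RatSet (k := k) ℓ h r R) {c₀ : k}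
    {Φ₀ : (E ≃ₐ[k] E) →* (U ≃+* U)} (hc₀ : c₀ ≠ 0) (hA₀ : Act (K0 := K0) ℓ r c₀ Φ₀) {a : k}
    (ha : Polynomial.eval a f = 0) : ∃ b ∈ R, θ b = algebraMap k E a := by
  obtain ⟨b, hb, hba⟩ := Gl'.ex (algebraMap k E a) (by
    rw [Polynomial.aeval_algebraMap_apply]
    have h1 : Polynomial.aeval a f = 0 := by
      rw [← ha]
      rfl
    rw [h1, _root_.map_zero])
  refine ⟨b, ?_, hba⟩
  by_contra hcon
  obtain ⟨σ, hσ⟩ := hR.only c₀ Φ₀ hc₀ hA₀ b hb hcon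
  exact hσ ((Gl'.act c₀ Φ₀ hc₀ hA₀ σ b b hb hb).2 (by rw [hba, AlgEquiv.commutes]))

/-- the hypothesis of block P6 on two roots in `k` -/
theorem pair_of (Gl' : GlP ℓ h r f θ) (hR : RatSet (k := k) ℓ h r R) {c₀ : k}
    {Φ₀ : (E ≃ₐ[k] E) →* (U ≃+* U)} (hc₀ : c₀ ≠ 0) (hA₀ : Act (K0 := K0) ℓ r c₀ Φ₀)
    (L : Type) [Field L] [NumberField L] [Algebra k L] [IsGalois k L] (ι : L →ₐ[k] E)
    (hs : (f.map (algebraMap k L)).Splits) (a b : k) (ha : Polynomial.eval a f = 0)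
    (hb : Polynomial.eval b f = 0) (hab : a ≠ b) :
    ℓ ≠ 2 ∧ ∀ σ : L ≃ₐ[k] L, ∃ x ∈ f.rootSet L, x ≠ algebraMap k L a ∧ x ≠ algebraMap k L b ∧
      ∃ n : ℕ, ¬ ℓ ∣ n ∧ (σ ^ n) x = x := by
  obtain ⟨ba, hba, hθa⟩ := rat_mem Gl' hR hc₀ hA₀ ha
  obtain ⟨bb, hbb, hθb⟩ := rat_mem Gl' hR hc₀ hA₀ hb
  have hne : ba ≠ bb := by
    rintro rfl
    rw [hθa] at hθb
    exact hab ((algebraMap k E).injective hθb)
  obtain ⟨h2, hp⟩ := hR.pair ba hba bb hbb hne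
  refine ⟨h2, fun σ => ?_⟩
  obtain ⟨g, hg⟩ := exists_lift13 ι σ
  obtain ⟨b₃, hb₃, h3a, h3b, n, hn, hm⟩ := hp c₀ Φ₀ hc₀ hA₀ g
  have h4 : θ b₃ ∈ f.rootSet E := by
    rw [Polynomial.mem_rootSet]
    exact ⟨Gl'.sep.ne_zero, Gl'.root b₃ hb₃⟩
  rw [← Polynomial.Splits.image_rootSet hs ι] at h4
  obtain ⟨x, hx, hx'⟩ := h4
  have hpow : ∀ (n : ℕ) (z : L), (g ^ n) (ι z) = ι ((σ ^ n) z) := by
    intro n
    induction n with
    | zero => intro z; rfl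
    | succ n ih =>
      intro z
      rw [pow_succ, AlgEquiv.mul_apply, hg, ih, pow_succ, AlgEquiv.mul_apply]
  refine ⟨x, hx, ?_, ?_, n, hn, ?_⟩
  · rintro rfl
    refine h3a (Gl'.inj _ _ hb₃ (hR.br ba hba) ?_)
    rw [← hx', hθa]
    exact AlgHom.commutes ι a
  · rintro rfl
    refine h3b (Gl'.inj _ _ hb₃ (hR.br bb hbb) ?_)
    rw [← hx', hθb]
    exact AlgHom.commutes ι b
  · have h5 := (Gl'.act c₀ Φ₀ hc₀ hA₀ (g ^ n) b₃ b₃ hb₃ hb₃).1 hm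
    have hx'' : ι x = θ b₃ := hx'
    rw [← hx'', hpow] at h5
    exact ι.injective h5

end rat

end Pool.Agent.PD
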