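import Pool.Agent.Helper97.PD.Defs
import Pool.Agent.Helper13.MLT.Wt
import Pool.Agent.Helper5.TW3.G3w

/-!
# Project PD, block G3: the weights for prime degree, with rational branch points
-/

set_option autoImplicit false
set_option linter.unusedSectionVars false

namespace Pool.Agent.PD

open Polynomial NumberField IsDedekindDomain
open Pool.Agent.HG (Pr nm Ctx Gd Over Special)
open Pool.Agent.HG.Ctx
open Pool.Agent.Helper99.HG (CD pf Nm Bad)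
open Pool.Agent.MP (SysR TAR)
open Pool.Agent.Helper99.ML (BTb WJb TBRb)
open Pool.Agent.ML
open Pool.Agent.MLT (WJbt TBRbt)
open scoped IntermediateField

section wt

variable {k L : Type} [Field k] [NumberField k] [Field L] [NumberField L] [Algebra k L]
  [IsGalois k L] {f : k[X]} (X : Ctx k L f) (n ℓ : ℕ) [NeZero ℓ]

open scoped Classical in
/-- the weights are less than `κ` in the mean, from bounds of the weights (`MLT.tbrT`) -/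
theorem tbr_gen (hpr : ℓ.Prime) (K : ℕ) {δs Cs : ℝ} {Qs : Set (Pr k)} (hδs : 0 < δs)
    {B₀ : ℕ → Finset (Pr k)} (hB₀ : ∀ x v, v ∈ B₀ x ↔ nm v ≤ x)
    (hCs : ∀ x : ℕ, 2 ≤ x →
      |∑ v ∈ (B₀ x).filter (· ∈ Qs), (1 : ℝ) / nm v - δs * Real.log (Real.log x)| ≤ Cs)
    {R₀ : Set (Pr k)} {κ C₂ : ℝ} (h2 : ∀ x : ℕ, 2 ≤ x →
      |∑ v ∈ (B₀ x).filter (· ∈ R₀), (1 : ℝ) / nm v - κ * Real.log (Real.log x)| ≤ C₂)
    (E : Finset (Fin n)) (hE : E.Nonempty)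
    (hm : 0 < X.m) (hfin : {v : Pr k | ¬ Gd X.M v}.Finite) (ι : Type)
    (Vι : Pr k → L → Finset ι) (Al : Fin n → L → Prop) (w : L → Fin n → ℕ)
    (SG : Pr k → ι → ℕ → L → L → rootsOfUnity ℓ k) (hh : L → L → L)
    (Q : Set (Pr k))
    {B : ℕ → Finset (Pr k)} (hB : ∀ x v, v ∈ B x ↔ nm v ≤ x) {δ C : ℝ}
    (hδ : δ ≤ (1 / (ℓ : ℝ)) ^ X.Ω.card / 2 * δs / (K + (1 / (ℓ : ℝ)) ^ X.Ω.card))
    (hC : ∀ x : ℕ, 2 ≤ x →
      |∑ v ∈ (B x).filter (· ∈ Q), (1 : ℝ) / nm v - δ * Real.log (Real.log x)| ≤ C)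
    (J : Finset (Fin X.m)) (hJ : J.Nonempty)
    (hR : ∀ v ∈ Qs, Gd X.M v → v ∈ R₀)
    (hw : ∀ p : Pr k × Fin n, Gd X.M p.1 → ∀ t : Fin X.m → L → rootsOfUnity ℓ k,
      WJbt (cdL X n ℓ hm hfin ι Vι Al w (ggL X ℓ hm w SG hh)) (1 / ℓ) J t p ≤ K ∧
      (p.1 ∉ Q → WJbt (cdL X n ℓ hm hfin ι Vι Al w (ggL X ℓ hm w SG hh)) (1 / ℓ) J t p ≤ 1) ∧
      (p.1 ∉ Q → p.1 ∈ Qs →
        WJbt (cdL X n ℓ hm hfin ι Vι Al w (ggL X ℓ hm w SG hh)) (1 / ℓ) J t p ≤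
          1 - (1 / (ℓ : ℝ)) ^ X.Ω.card)) :
    TBRbt (cdL X n ℓ hm hfin ι Vι Al w (ggL X ℓ hm w SG hh)) (1 / ℓ)
      {p : Pr k × Fin n | p.2 ∈ E ∧ p.1 ∈ R₀} (E.card * κ) J := by
  have hℓ := hpr.two_le
  have hℓ0 : (0 : ℝ) < ℓ := by exact_mod_cast (by omega : 0 < ℓ)
  set a : ℝ := (1 / (ℓ : ℝ)) ^ X.Ω.card with ha
  have ha0 : 0 < a := by positivity
  have ha1 : a ≤ 1 := pow_le_one₀ (by positivity) (by
    rw [div_le_one hℓ0]
    exact_mod_cast (by omega : 1 ≤ ℓ))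
  have hKpos : (0 : ℝ) < K + a := by positivity
  have hEc : (0 : ℝ) < E.card := by exact_mod_cast hE.card_pos
  refine ⟨hJ, E.card * (a / 2 * δs), E.card * (2 * C₂ + a * (2 * Cs + ∑ v ∈ hfin.toFinset, (1 : ℝ) / nm v) +
    (K + a) * (2 * C)), by positivity, fun y x hy hyx
    (t : Pr k × Fin n → Fin X.m → L → rootsOfUnity ℓ k) (S : Finset (Pr k × Fin n)) hS => ?_⟩
  have hS' : ∀ p : Pr k × Fin n, p ∈ S ↔ (p.2 ∈ E ∧ p.1 ∈ R₀) ∧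
      p ∉ hfin.toFinset ×ˢ (Finset.univ : Finset (Fin n)) ∧ y < nm p.1 ∧ nm p.1 ≤ x := hS
  set SV : Finset (Pr k) := S.image Prod.fst with hSV
  have hSV' : ∀ v, v ∈ SV ↔ v ∈ R₀ ∧ v ∉ hfin.toFinset ∧ y < nm v ∧ nm v ≤ x := by
    intro v
    rw [hSV, Finset.mem_image]
    constructor
    · rintro ⟨p, hp, rfl⟩
      have h1 := (hS' p).1 hp
      exact ⟨h1.1.2, fun h => h1.2.1 (Finset.mem_product.2 ⟨h, Finset.mem_univ _⟩), h1.2.2⟩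
    · rintro ⟨h1, h2, h3⟩
      obtain ⟨e, he⟩ := hE
      exact ⟨(v, e), (hS' (v, e)).2 ⟨⟨he, h1⟩, fun h => h2 (Finset.mem_product.1 h).1, h3⟩, rfl⟩
  have hLL : Real.log (Real.log y) ≤ Real.log (Real.log x) :=
    Real.log_le_log (Real.log_pos (by exact_mod_cast (by omega : 1 < y)))
      (Real.log_le_log (by exact_mod_cast (by omega : 0 < y)) (by exact_mod_cast hyx))
  have hgd : ∀ v, v ∉ hfin.toFinset → Gd X.M v := by
    intro v hv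
    by_contra h8
    exact hv (hfin.mem_toFinset.2 h8)
  have e1 := HG.upperQ5 hB₀ R₀ (by convert h2) hy hyx SV
    fun v hv => ⟨((hSV' v).1 hv).1, ((hSV' v).1 hv).2.2⟩
  have e2 := HG.diff5 hB₀ Qs (by convert hCs) hfin.toFinset hy hyx (SV.filter (· ∈ Qs))
    fun v hvQ h1 h2 h3 => by
      rw [Finset.mem_filter, hSV']
      exact ⟨⟨hR v hvQ (hgd v h3), h3, h1, h2⟩, hvQ⟩
  have e2' := HG.upperQ5 hB Q (by convert hC) hy hyx (SV.filter (· ∈ Q))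
    fun v hv => by
      rw [Finset.mem_filter, hSV'] at hv
      exact ⟨hv.2, hv.1.2.2⟩
  -- the bound for the weights
  let bd : Pr k → ℝ := fun v => 1 - a * (if v ∈ Qs then (1 : ℝ) else 0) + (K + a) * (if v ∈ Q then (1 : ℝ) else 0)
  have hbd0 : ∀ v, 0 ≤ bd v := by
    intro v
    simp only [bd]
    split_ifs <;> nlinarith
  have key : ∀ p ∈ S, WJbt (cdL X n ℓ hm hfin ι Vι Al w (ggL X ℓ hm w SG hh)) (1 / ℓ) J (t p) p ≤ bd p.1 := by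
    intro p hp
    have hg : Gd X.M p.1 := hgd p.1 fun h => ((hS' p).1 hp).2.1 (Finset.mem_product.2 ⟨h, Finset.mem_univ _⟩)
    obtain ⟨k1, k2, k3⟩ := hw p hg (t p)
    simp only [bd]
    by_cases hvQ : p.1 ∈ Q
    · rw [if_pos hvQ]
      split_ifs <;> nlinarith
    · rw [if_neg hvQ, mul_zero, add_zero]
      split_ifs with h
      · have := k3 hvQ h
        linarith
      · have := k2 hvQ
        linarith
  have e3 : ∑ p ∈ S, WJbt (cdL X n ℓ hm hfin ι Vι Al w (ggL X ℓ hm w SG hh)) (1 / ℓ) J (t p) p / nm p.1 ≤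
      E.card * ∑ v ∈ SV, bd v / nm v := by
    refine sum_lab_le E S (fun p hp => ((hS' p).1 hp).1.1) (fun v => bd v / nm v)
      (fun v => div_nonneg (hbd0 v) (Nat.cast_nonneg _)) _ fun p hp => ?_
    exact div_le_div_of_nonneg_right (key p hp) (Nat.cast_nonneg _)
  have e4 : ∑ v ∈ SV, bd v / nm v =
      ∑ v ∈ SV, (1 : ℝ) / nm v - a * ∑ v ∈ SV.filter (· ∈ Qs), (1 : ℝ) / nm v +
        (K + a) * ∑ v ∈ SV.filter (· ∈ Q), (1 : ℝ) / nm v := by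
    rw [Finset.sum_filter, Finset.sum_filter, Finset.mul_sum, Finset.mul_sum, ← Finset.sum_sub_distrib,
      ← Finset.sum_add_distrib]
    refine Finset.sum_congr rfl fun v _ => ?_
    simp only [bd]
    split_ifs <;> ring
  have e5 : (K + a : ℝ) * (δ * (Real.log (Real.log x) - Real.log (Real.log y))) ≤
      a / 2 * δs * (Real.log (Real.log x) - Real.log (Real.log y)) := by
    rw [← mul_assoc]
    refine mul_le_mul_of_nonneg_right ?_ (by linarith)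
    rw [le_div_iff₀ hKpos] at hδ
    linarith
  have e6 : (K + a : ℝ) * ∑ v ∈ SV.filter (· ∈ Q), (1 : ℝ) / nm v ≤
      (K + a) * (δ * (Real.log (Real.log x) - Real.log (Real.log y)) + 2 * C) :=
    mul_le_mul_of_nonneg_left e2' hKpos.le
  have e7 : a * (δs * (Real.log (Real.log x) - Real.log (Real.log y)) -
      (2 * Cs + ∑ v ∈ hfin.toFinset, (1 : ℝ) / nm v)) ≤ a * ∑ v ∈ SV.filter (· ∈ Qs), (1 : ℝ) / nm v :=
    mul_le_mul_of_nonneg_left e2 ha0.le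
  have e8 : ∑ v ∈ SV, bd v / nm v ≤ (κ - a / 2 * δs) * (Real.log (Real.log x) - Real.log (Real.log y)) +
      (2 * C₂ + a * (2 * Cs + ∑ v ∈ hfin.toFinset, (1 : ℝ) / nm v) + (K + a) * (2 * C)) := by
    rw [e4]
    rw [mul_add] at e6
    nlinarith
  change ∑ p ∈ S, WJbt (cdL X n ℓ hm hfin ι Vι Al w (ggL X ℓ hm w SG hh)) (1 / ℓ) J (t p) p / nm p.1 ≤ _
  refine e3.trans ((mul_le_mul_of_nonneg_left e8 hEc.le).trans (le_of_eq ?_))
  ring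


/-- if `ℓ` does not divide the number of the roots outside `J` then some orbit outside `J` has length
prime to `ℓ` (`TW.exists_odd5` is the case `ℓ = 2`) -/
theorem exists_len3 {ℓ : ℕ} (hp : ℓ.Prime) (hm : 0 < X.m) (J : Finset (Fin X.m)) (v : Pr k)
    (h : ¬ ℓ ∣ X.Ω.card - (X.ΩJ5 hm J).card) :
    ∃ ρ ∈ X.R v, X.cmp hm ρ ∉ J ∧ ¬ ℓ ∣ X.len v ρ := by
  classical
  have : Fact (Nat.Prime ℓ) := ⟨hp⟩
  set T : Finset L := X.Ω \ X.ΩJ5 hm J with hT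
  have hTm : ∀ θ : L, θ ∈ T ↔ θ ∈ X.Ω ∧ X.cmp hm θ ∉ J := by
    intro θ
    rw [hT, Finset.mem_sdiff, mem_ΩJ5]
    tauto
  have hsub : X.ΩJ5 hm J ⊆ X.Ω := by
    unfold Ctx.ΩJ5
    exact Finset.filter_subset _ _
  have hcard : T.card = X.Ω.card - (X.ΩJ5 hm J).card := by
    rw [hT, Finset.card_sdiff_of_subset hsub]
  have hst : ∀ σ : L ≃ₐ[k] L, ∀ θ ∈ T, σ θ ∈ T := by
    intro σ θ hθ
    rw [hTm] at hθ ⊢
    refine ⟨X.conj_mem hθ.1 σ, ?_⟩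
    rw [X.cmp_congr5 hm (minpoly.algEquiv_eq σ θ)]
    exact hθ.2
  obtain ⟨s, m, hm2, hsm⟩ := Nat.exists_eq_pow_mul_and_not_dvd (orderOf_pos (X.F v)).ne' ℓ
    hp.one_lt.ne'
  have hiff : ∀ θ : L, (X.F v ^ m) θ ∈ T ↔ θ ∈ T := by
    intro θ
    constructor
    · intro h1
      have h2 := hst (X.F v ^ m)⁻¹ _ h1
      rwa [← AlgEquiv.mul_apply, inv_mul_cancel] at h2
    · exact hst _ θ
  set τ : Equiv.Perm {θ // θ ∈ T} :=
    Equiv.Perm.subtypePerm ((X.F v ^ m : L ≃ₐ[k] L).toEquiv) (p := fun θ => θ ∈ T) hiff with hτ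
  have hτv : ∀ (n : ℕ) (θ : {θ // θ ∈ T}), ((τ ^ n) θ : L) = ((X.F v ^ m) ^ n) θ := by
    intro n
    induction n with
    | zero => intro θ; rfl
    | succ n ih =>
      intro θ
      rw [pow_succ, pow_succ, Equiv.Perm.mul_apply, ih, AlgEquiv.mul_apply]
      rfl
  have hτ2 : τ ^ ℓ ^ s = 1 := by
    ext θ
    rw [hτv, ← pow_mul, mul_comm, ← hsm, pow_orderOf_eq_one]
    rfl
  have hcT : ¬ ℓ ∣ Fintype.card {θ // θ ∈ T} := by
    rw [Fintype.card_coe, hcard]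
    exact h
  obtain ⟨⟨θ, hθ⟩, hfix⟩ := Equiv.Perm.exists_fixed_point_of_prime hcT hτ2
  have h1 : (X.F v ^ m) θ = θ := by
    have h2 := hτv 1 ⟨θ, hθ⟩
    rw [pow_one, pow_one, hfix] at h2
    exact h2.symm
  rw [Ctx.pow_apply'] at h1
  have hper : Function.IsPeriodicPt (X.F v) m θ := h1
  have hm0 : 0 < m := Nat.pos_of_ne_zero fun h0 => hm2 (h0 ▸ dvd_zero ℓ)
  have hdvd : X.len v θ ∣ m := hper.minimalPeriod_dvd
  obtain ⟨i, hi⟩ := X.rep_eq v θ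
  have hlen : X.len v (X.rep v θ) = X.len v θ := by
    unfold Ctx.len
    rw [hi]
    exact Function.minimalPeriod_apply_iterate ⟨m, hm0, hper⟩ i
  rw [hTm] at hθ
  refine ⟨X.rep v θ, ?_, ?_, ?_⟩
  · unfold Ctx.R
    exact Finset.mem_image_of_mem _ hθ.1
  · rw [X.cmp_rep5]
    exact hθ.2
  · rw [hlen]
    exact fun h8 => hm2 (h8.trans hdvd)

/-- the weight is at most `c` if `J` is large -/
theorem wj_le_one3 (hp : ℓ.Prime) (h2 : 2 ≤ f.natDegree) (hpar : ℓ = 2 → Even X.Ω.card)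
    (hm : 0 < X.m)
    (hfin : {v : Pr k | ¬ Gd X.M v}.Finite) (ι : Type)
    (Vι : Pr k → L → Finset ι) (Al : Fin n → L → Prop) (w : L → Fin n → ℕ)
    (SG : Pr k → ι → ℕ → L → L → rootsOfUnity ℓ k) (hh : L → L → L)
    (J : Finset (Fin X.m)) (hJ : 3 ≤ (X.ΩJ5 hm J).card) (p : Pr k × Fin n)
    (t : Fin X.m → L → rootsOfUnity ℓ k) (c : ℕ) (hc : ∀ t, (Vι p.1 t).card ≤ c) :
    WJbt (cdL X n ℓ hm hfin ι Vι Al w (ggL X ℓ hm w SG hh)) (1 / ℓ) J t p ≤ c := by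
  classical
  have hℓ := hp.two_le
  have hℓ0 : (0 : ℝ) < ℓ := by exact_mod_cast hp.pos
  have hℓ1 : (1 / (ℓ : ℝ)) ≤ 1 := by
    rw [div_le_one hℓ0]
    exact_mod_cast (by omega : 1 ≤ ℓ)
  have hsub : X.ΩJ5 hm J ⊆ X.Ω := by
    unfold Ctx.ΩJ5
    exact Finset.filter_subset _ _
  -- the forced case
  have hforced : (¬ ℓ ∣ X.Ω.card - (X.ΩJ5 hm J).card) →
      (X.FJ5 hm J p.1).card ≤ (X.ΩJ5 hm J).card →
      ((X.ΩJ5 hm J).card : ℝ) * ℓ ≤ (ℓ : ℝ) ^ (X.ΩJ5 hm J).card →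
      (X.ΩJ5 hm J).card ≤ (X.RJ5 hm J p.1).card →
      WJbt (cdL X n ℓ hm hfin ι Vι Al w (ggL X ℓ hm w SG hh)) (1 / ℓ) J t p ≤ c := by
    intro hnd hF hnum hR
    obtain ⟨ρ, hρ, hρJ, hlen⟩ := exists_len3 X hp hm J p.1 hnd
    refine (MLT.wjT_forced X n ℓ hp h2 hm hfin ι Vι Al w SG hh J p t hρ hρJ hlen c hc).trans ?_
    have h7 : (1 / (ℓ : ℝ)) ^ (X.RJ5 hm J p.1).card ≤ (1 / (ℓ : ℝ)) ^ (X.ΩJ5 hm J).card :=
      pow_le_pow_of_le_one (by positivity) hℓ1 hR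
    have h8 : (ℓ : ℝ) ^ (X.ΩJ5 hm J).card * (1 / ℓ) ^ (X.ΩJ5 hm J).card = 1 := by
      rw [← mul_pow, mul_one_div_cancel hℓ0.ne', one_pow]
    have h9 : ((X.FJ5 hm J p.1).card : ℝ) ≤ (X.ΩJ5 hm J).card := by exact_mod_cast hF
    have h10 : (ℓ : ℝ) * ((X.FJ5 hm J p.1).card : ℝ) * (1 / (ℓ : ℝ)) ^ (X.RJ5 hm J p.1).card ≤ 1 := by
      calc (ℓ : ℝ) * ((X.FJ5 hm J p.1).card : ℝ) * (1 / (ℓ : ℝ)) ^ (X.RJ5 hm J p.1).card
          ≤ (ℓ : ℝ) * (X.ΩJ5 hm J).card * (1 / (ℓ : ℝ)) ^ (X.ΩJ5 hm J).card := by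
            refine mul_le_mul (mul_le_mul_of_nonneg_left h9 hℓ0.le) h7 (by positivity)
              (by positivity)
        _ ≤ (ℓ : ℝ) ^ (X.ΩJ5 hm J).card * (1 / (ℓ : ℝ)) ^ (X.ΩJ5 hm J).card := by
            refine mul_le_mul_of_nonneg_right ?_ (by positivity)
            linarith
        _ = 1 := h8
    calc (c : ℝ) * ((ℓ : ℝ) * ((X.FJ5 hm J p.1).card : ℝ) *
        (1 / (ℓ : ℝ)) ^ (X.RJ5 hm J p.1).card) ≤ c * 1 :=
          mul_le_mul_of_nonneg_left h10 (Nat.cast_nonneg c)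
      _ = c := mul_one _
  rcases lt_or_ge (X.FJ5 hm J p.1).card (X.ΩJ5 hm J).card with h | h
  · exact MLT.wjT_free X n ℓ hp.pos hm hfin ι Vι Al w _ J p t c hc
      (MLT.numA hℓ (X.card_RJ5 hm J p.1 h))
  · have hF : (X.FJ5 hm J p.1).card = (X.ΩJ5 hm J).card :=
      le_antisymm (Finset.card_le_card (X.FJ_sub_ΩJ5 hm J p.1)) h
    have hR : (X.ΩJ5 hm J).card ≤ (X.RJ5 hm J p.1).card := by
      rw [← hF]
      exact Finset.card_le_card (X.FJ_sub_RJ5 hm J p.1)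
    rcases MLT.numB hℓ hJ with h3 | ⟨h3, h4⟩
    · refine MLT.wjT_free X n ℓ hp.pos hm hfin ι Vι Al w _ J p t c hc ?_
      rw [hF]
      exact h3.trans (Nat.pow_le_pow_right hp.pos hR)
    · have h5 := Finset.card_le_card hsub
      refine hforced ?_ hF.le ?_ hR
      · have h6 := hpar h3
        rw [h3, h4] at *
        have : Odd (X.Ω.card - 3) := Nat.Even.sub_odd h5 h6 (by decide)
        exact this.not_two_dvd_nat
      · rw [h3, h4]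
        norm_num

/-- the weight at the split primes -/
theorem wj_split3 (hp : ℓ.Prime) (h2 : 2 ≤ f.natDegree) (hpar : ℓ = 2 → Even X.Ω.card)
    (hbig : X.Ω.card * ℓ ^ 2 < ℓ ^ X.Ω.card) (hm : 0 < X.m)
    (hfin : {v : Pr k | ¬ Gd X.M v}.Finite) (ι : Type)
    (Vι : Pr k → L → Finset ι) (Al : Fin n → L → Prop) (w : L → Fin n → ℕ)
    (SG : Pr k → ι → ℕ → L → L → rootsOfUnity ℓ k) (hh : L → L → L)
    (J : Finset (Fin X.m)) (hJ : 3 ≤ (X.ΩJ5 hm J).card) (p : Pr k × Fin n)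
    (t : Fin X.m → L → rootsOfUnity ℓ k) (hc : ∀ t, (Vι p.1 t).card ≤ 1)
    (h : ∀ θ ∈ X.Ω, X.F p.1 θ = θ) :
    WJbt (cdL X n ℓ hm hfin ι Vι Al w (ggL X ℓ hm w SG hh)) (1 / ℓ) J t p ≤
      1 - (1 / ℓ) ^ X.Ω.card := by
  classical
  have hℓ := hp.two_le
  have hℓ0 : (0 : ℝ) < ℓ := by exact_mod_cast hp.pos
  have hℓ1 : (1 / (ℓ : ℝ)) ≤ 1 := by
    rw [div_le_one hℓ0]
    exact_mod_cast (by omega : 1 ≤ ℓ)
  have hsub : X.ΩJ5 hm J ⊆ X.Ω := by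
    unfold Ctx.ΩJ5
    exact Finset.filter_subset _ _
  have hFJ : X.FJ5 hm J p.1 = X.ΩJ5 hm J := by
    ext ρ
    rw [Ctx.mem_FJ5, Ctx.mem_ΩJ5]
    exact ⟨fun a => ⟨a.1.1, a.2⟩, fun a => ⟨⟨a.1, h ρ a.1⟩, a.2⟩⟩
  by_cases hall : X.Ω ⊆ X.ΩJ5 hm J
  · have heq : X.ΩJ5 hm J = X.Ω := Finset.Subset.antisymm hsub hall
    refine (MLT.wjbt_le (cdL X n ℓ hm hfin ι Vι Al w (ggL X ℓ hm w SG hh)) (by positivity) J t p).trans
      (wjL_split X n ℓ hℓ hm hfin ι Vι Al w (ggL X ℓ hm w SG hh) J ?_ p hc h)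
    rw [heq]
    exact hbig
  · obtain ⟨ρ, hρ, hρ'⟩ := Finset.not_subset.1 hall
    have hρJ : X.cmp hm ρ ∉ J := fun h3 => hρ' ((X.mem_ΩJ5 hm J ρ).2 ⟨hρ, h3⟩)
    have hlen : ¬ ℓ ∣ X.len p.1 ρ := by
      have h3 : X.len p.1 ρ = 1 := by
        unfold Ctx.len
        exact Function.minimalPeriod_eq_one_iff_isFixedPt.2 (h ρ hρ)
      rw [h3]
      exact hp.one_lt.ne' ∘ Nat.dvd_one.1
    refine (MLT.wjT_forced X n ℓ hp h2 hm hfin ι Vι Al w SG hh J p t (X.fix_mem_R5 hρ (h ρ hρ)) hρJ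
      hlen 1 hc).trans ?_
    have h1 := Finset.card_le_card (X.FJ_sub_RJ5 hm J p.1)
    rw [hFJ] at h1 ⊢
    rw [Nat.cast_one, one_mul]
    have hnum : (X.ΩJ5 hm J).card * ℓ + 1 ≤ ℓ ^ (X.ΩJ5 hm J).card := MLT.numC hℓ hJ
    set j := (X.ΩJ5 hm J).card
    have h4 : (1 / (ℓ : ℝ)) ^ (X.RJ5 hm J p.1).card ≤ (1 / (ℓ : ℝ)) ^ j :=
      pow_le_pow_of_le_one (by positivity) hℓ1 h1
    have h5 : (1 / (ℓ : ℝ)) ^ X.Ω.card ≤ (1 / (ℓ : ℝ)) ^ j :=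
      pow_le_pow_of_le_one (by positivity) hℓ1 (Finset.card_le_card hsub)
    have h6 : (ℓ : ℝ) * j ≤ ℓ ^ j - 1 := by
      have h7 : ((j * ℓ + 1 : ℕ) : ℝ) ≤ ((ℓ ^ j : ℕ) : ℝ) := by exact_mod_cast hnum
      push_cast at h7
      linarith
    have h8 : (ℓ : ℝ) ^ j * (1 / ℓ) ^ j = 1 := by
      rw [← mul_pow, mul_one_div_cancel hℓ0.ne', one_pow]
    calc (ℓ : ℝ) * j * (1 / (ℓ : ℝ)) ^ (X.RJ5 hm J p.1).card
        ≤ (ℓ : ℝ) * j * (1 / (ℓ : ℝ)) ^ j := mul_le_mul_of_nonneg_left h4 (by positivity)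
      _ ≤ (ℓ ^ j - 1) * (1 / (ℓ : ℝ)) ^ j := mul_le_mul_of_nonneg_right h6 (by positivity)
      _ = 1 - (1 / (ℓ : ℝ)) ^ j := by rw [sub_mul, h8, one_mul]
      _ ≤ _ := by linarith

/-- the root of an option is fixed by the Frobenius element -/
theorem mem_VL (hm : 0 < X.m) (hfin : {v : Pr k | ¬ Gd X.M v}.Finite) (ι : Type)
    (Vι : Pr k → L → Finset ι) (Al : Fin n → L → Prop) (w : L → Fin n → ℕ)
    (g : Pr k × Fin n → (Σ _ : L × rootsOfUnity ℓ k, ι) → L → rootsOfUnity ℓ k)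
    (p : Pr k × Fin n) (o : (Σ _ : L × rootsOfUnity ℓ k, ι))
    (ho : o ∈ (cdL X n ℓ hm hfin ι Vι Al w g).V p) : o.1.1 ∈ X.Ω := by
  classical
  have ho' : o ∈ (((X.Fx p.1).filter fun θ => Al p.2 θ) ×ˢ
      (Set.toFinite (Set.univ : Set (rootsOfUnity ℓ k))).toFinset).sigma
        fun o => Vι p.1 o.1 := ho
  rw [Finset.mem_sigma, Finset.mem_product, Finset.mem_filter] at ho'
  have h1 := ho'.1.1.1
  unfold Ctx.Fx at h1
  exact (Finset.mem_filter.1 h1).1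

/-- two rational roots and an orbit of length prime to `ℓ`: the weight is at most `2 / ℓ` -/
theorem wj_pair (hp : ℓ.Prime) (h2 : 2 ≤ f.natDegree) (hm : 0 < X.m)
    (hfin : {v : Pr k | ¬ Gd X.M v}.Finite) (ι : Type)
    (Vι : Pr k → L → Finset ι) (Al : Fin n → L → Prop) (w : L → Fin n → ℕ)
    (SG : Pr k → ι → ℕ → L → L → rootsOfUnity ℓ k) (hh : L → L → L) {a b : k}
    (ha : eval a f = 0) (hb : eval b f = 0) (hab : a ≠ b)
    (p : Pr k × Fin n) (ho : ∃ θ ∈ X.Ω, θ ≠ algebraMap k L a ∧ θ ≠ algebraMap k L b ∧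
      ∃ n : ℕ, ¬ ℓ ∣ n ∧ (X.F p.1 ^ n) θ = θ)
    (t : Fin X.m → L → rootsOfUnity ℓ k) (c : ℕ) (hc : ∀ t, (Vι p.1 t).card ≤ c) :
    WJbt (cdL X n ℓ hm hfin ι Vι Al w (ggL X ℓ hm w SG hh)) (1 / ℓ)
      {X.cmp hm (algebraMap k L a), X.cmp hm (algebraMap k L b)} t p ≤ c * (2 / ℓ) := by
  classical
  have hℓ := hp.two_le
  have hℓ0 : (0 : ℝ) < ℓ := by exact_mod_cast hp.pos
  have hℓ1 : (1 / (ℓ : ℝ)) ≤ 1 := by
    rw [div_le_one hℓ0]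
    exact_mod_cast (by omega : 1 ≤ ℓ)
  obtain ⟨J, hJ⟩ : ∃ J : Finset (Fin X.m),
    J = {X.cmp hm (algebraMap k L a), X.cmp hm (algebraMap k L b)} := ⟨_, rfl⟩
  rw [← hJ]
  have haJ : X.cmp hm (algebraMap k L a) ∈ J := by
    rw [hJ]
    exact Finset.mem_insert_self _ _
  have hbJ : X.cmp hm (algebraMap k L b) ∈ J := by
    rw [hJ]
    exact Finset.mem_insert_of_mem (Finset.mem_singleton_self _)
  have hJr : ∀ θ ∈ X.Ω, X.cmp hm θ ∈ J → θ = algebraMap k L a ∨ θ = algebraMap k L b := by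
    intro θ hθ h
    rw [hJ, Finset.mem_insert, Finset.mem_singleton] at h
    exact h.imp (X.eq_rat_of_cmp22 hm ha hθ) (X.eq_rat_of_cmp22 hm hb hθ)
  -- the orbit outside
  obtain ⟨θ, hθ, hθa, hθb, N, hN, hθN⟩ := ho
  have hθJ : X.cmp hm θ ∉ J := fun h => (hJr θ hθ h).elim hθa hθb
  rw [Ctx.pow_apply'] at hθN
  have hper : Function.IsPeriodicPt (X.F p.1) N θ := hθN
  have hN0 : 0 < N := Nat.pos_of_ne_zero fun h0 => hN (h0 ▸ dvd_zero ℓ)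
  obtain ⟨i, hi⟩ := X.rep_eq p.1 θ
  have hlen : X.len p.1 (X.rep p.1 θ) = X.len p.1 θ := by
    unfold Ctx.len
    rw [hi]
    exact Function.minimalPeriod_apply_iterate ⟨N, hN0, hper⟩ i
  have hρ : X.rep p.1 θ ∈ X.R p.1 := by
    unfold Ctx.R
    exact Finset.mem_image_of_mem _ hθ
  have hρJ : X.cmp hm (X.rep p.1 θ) ∉ J := by
    rw [X.cmp_rep5]
    exact hθJ
  have hlen' : ¬ ℓ ∣ X.len p.1 (X.rep p.1 θ) := by
    rw [hlen]
    exact fun h8 => hN (h8.trans hper.minimalPeriod_dvd)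
  refine (Pool.Agent.MLT.wjT_forced X n ℓ hp h2 hm hfin ι Vι Al w SG hh J p t hρ hρJ hlen' c
    hc).trans ?_
  -- the fixed points and the orbits
  have hF : (X.FJ5 hm J p.1).card ≤ 2 := by
    refine (Finset.card_le_card (t := {algebraMap k L a, algebraMap k L b}) ?_).trans
      Finset.card_le_two
    intro ρ hρ
    rw [Ctx.mem_FJ5] at hρ
    rw [Finset.mem_insert, Finset.mem_singleton]
    exact hJr ρ hρ.1.1 hρ.2
  have hR : 2 ≤ (X.RJ5 hm J p.1).card := by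
    have h1 : ({algebraMap k L a, algebraMap k L b} : Finset L) ⊆ X.RJ5 hm J p.1 := by
      intro ρ hρ
      rw [Finset.mem_insert, Finset.mem_singleton] at hρ
      refine X.FJ_sub_RJ5 hm J p.1 ?_
      rw [Ctx.mem_FJ5]
      rcases hρ with rfl | rfl
      · exact ⟨⟨X.rat_mem22 ha, AlgEquiv.commutes _ a⟩, haJ⟩
      · exact ⟨⟨X.rat_mem22 hb, AlgEquiv.commutes _ b⟩, hbJ⟩
    have h3 := Finset.card_le_card h1
    rwa [Finset.card_pair fun h => hab ((algebraMap k L).injective h)] at h3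
  have h7 : (1 / (ℓ : ℝ)) ^ (X.RJ5 hm J p.1).card ≤ (1 / (ℓ : ℝ)) ^ 2 :=
    pow_le_pow_of_le_one (by positivity) hℓ1 hR
  have h9 : ((X.FJ5 hm J p.1).card : ℝ) ≤ 2 := by exact_mod_cast hF
  refine mul_le_mul_of_nonneg_left ?_ (Nat.cast_nonneg c)
  calc (ℓ : ℝ) * ((X.FJ5 hm J p.1).card : ℝ) * (1 / (ℓ : ℝ)) ^ (X.RJ5 hm J p.1).card
      ≤ (ℓ : ℝ) * 2 * (1 / (ℓ : ℝ)) ^ 2 := by
        exact mul_le_mul (mul_le_mul_of_nonneg_left h9 hℓ0.le) h7 (by positivity)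
          (by positivity)
    _ = 2 / ℓ := by
        field_simp

end wt

/-- **BLOCK P6** -/
theorem g3 : StmtG3 := by
  classical
  intro hMe hSp _ _ k L _ _ _ _ _ _ f ℓ _ hℓ hmu hpar hbig _ hO K
  have hDer : HG.StmtDer := Pool.Agent.Helper22.HG.der
  obtain ⟨B₀, hB₀⟩ := HG.exists_B5 k
  obtain ⟨δs, Cs, Qs, hδs, hQs, hCs⟩ := hSp k L B₀ hB₀
  obtain ⟨_, C₂, hC₂⟩ := hMe k B₀ hB₀
  have hℓ0 : (0 : ℝ) < ℓ := by exact_mod_cast hℓ.pos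
  have ha0 : (0 : ℝ) < (1 / (ℓ : ℝ)) ^ (f.rootSet_finite L).toFinset.card := by positivity
  have hKpos : (0 : ℝ) < K + (1 / (ℓ : ℝ)) ^ (f.rootSet_finite L).toFinset.card := by positivity
  refine ⟨(1 / (ℓ : ℝ)) ^ (f.rootSet_finite L).toFinset.card / 2 * δs /
    (K + (1 / (ℓ : ℝ)) ^ (f.rootSet_finite L).toFinset.card), by positivity,
    fun X hm hfin ι Vι w SG hh hK Q hQ B hB δ C hδ hC => ?_⟩
  have hΩeq : X.Ω.card = (f.rootSet_finite L).toFinset.card := by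
    refine congrArg Finset.card (Finset.ext fun θ => ?_)
    rw [Ctx.mem_Ω, Set.Finite.mem_toFinset]
  obtain ⟨R₀, hR₀⟩ : ∃ R₀ : Set (Pr k), ∀ v, v ∈ R₀ := ⟨Set.univ, Set.mem_univ⟩
  have hset : {p : Pr k × Fin ℓ | ¬ ℓ ∣ (p.2 : ℕ)} =
      {p : Pr k × Fin ℓ | p.2 ∈ (Finset.univ : Finset (Fin ℓ)).filter (fun e : Fin ℓ => ¬ ℓ ∣ (e : ℕ)) ∧
        p.1 ∈ R₀} := by
    ext p
    simp [hR₀]
  have hκ : ((ℓ - 1 : ℕ) : ℝ) =
      ((Finset.univ : Finset (Fin ℓ)).filter (fun e : Fin ℓ => ¬ ℓ ∣ (e : ℕ))).card * (1 : ℝ) := by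
    rw [card_lab hℓ.pos (dvd_refl ℓ), Nat.div_self hℓ.pos, mul_one]
  have h2 : ∀ x : ℕ, 2 ≤ x → |∑ v ∈ (B₀ x).filter (· ∈ R₀), (1 : ℝ) / nm v -
      1 * Real.log (Real.log x)| ≤ C₂ := by
    intro x hx
    have h3 := hC₂ x hx
    rw [one_mul, Finset.filter_true_of_mem (fun v _ => hR₀ v)]
    exact h3
  have hE : (⟨1, hℓ.one_lt⟩ : Fin ℓ) ∈ (Finset.univ : Finset (Fin ℓ)).filter (fun e : Fin ℓ => ¬ ℓ ∣ (e : ℕ)) :=
    Finset.mem_filter.2 ⟨Finset.mem_univ _, fun h => hℓ.one_lt.ne' (Nat.dvd_one.1 h)⟩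
  obtain ⟨hdeg, hΩ⟩ : 2 ≤ f.natDegree ∧ X.Ω.card = f.natDegree := by
    have h1 : X.Ω.card = f.natDegree := by
      have h2 : X.Ω = (f.rootSet L).toFinset := by
        ext θ
        rw [Ctx.mem_Ω, Set.mem_toFinset]
      rw [h2, Set.toFinset_card]
      exact Polynomial.card_rootSet_eq_natDegree X.sepf X.splits
    refine ⟨?_, h1⟩
    by_contra hcon
    have h0 : f.natDegree ≠ 0 := by
      intro h0
      rw [h0] at h1
      obtain ⟨θ, hθ, -⟩ := X.cmp_surj22 hm ⟨0, hm⟩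
      rw [Finset.card_eq_zero.1 h1] at hθ
      exact Finset.notMem_empty _ hθ
    have h2 : f.natDegree = 1 := by omega
    rw [h2, pow_one, one_mul] at hbig
    have h3 := Nat.le_self_pow two_ne_zero ℓ
    omega
  -- the large sets
  have hfix : ∀ v ∈ Qs, Gd X.M v → ∀ θ ∈ X.Ω, X.F v θ = θ := fun v hv hg θ hθ =>
    X.fix_split5 hg (hQs v hv (X.P v) (X.comap v)) hθ
  have hpos : (0 : ℝ) < (1 / (ℓ : ℝ)) ^ X.Ω.card := by positivity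
  have hpar' : ℓ = 2 → Even X.Ω.card := fun h => by
    rw [hΩ]
    exact hpar h
  have hbig' : X.Ω.card * ℓ ^ 2 < ℓ ^ X.Ω.card := by
    rw [hΩ]
    exact hbig
  have hbigJ : ∀ J : Finset (Fin X.m), 3 ≤ (X.ΩJ5 hm J).card →
      TBRbt (cdL X ℓ ℓ hm hfin ι Vι (fun _ _ => True) w (ggL X ℓ hm w SG hh)) (1 / ℓ)
        {p : Pr k × Fin ℓ | ¬ ℓ ∣ (p.2 : ℕ)} ((ℓ - 1 : ℕ) : ℝ) J := by
    intro J hJ
    obtain ⟨θ₀, hθ₀⟩ : (X.ΩJ5 hm J).Nonempty := Finset.card_pos.1 (by omega)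
    rw [Ctx.mem_ΩJ5] at hθ₀
    rw [hκ]
    refine Eq.mpr (congrArg (fun R : Set (Pr k × Fin ℓ) =>
      TBRbt (cdL X ℓ ℓ hm hfin ι Vι (fun _ _ => True) w (ggL X ℓ hm w SG hh)) (1 / ℓ) R _ J)
      hset) ?_
    refine tbr_gen X ℓ ℓ hℓ K hδs hB₀ hCs h2 _ ⟨_, hE⟩ hm hfin ι Vι (fun _ _ => True) w SG hh Q hB
      ?_ hC J ⟨_, hθ₀.2⟩ (fun v _ _ => hR₀ v) ?_
    · rw [hΩeq]
      exact hδ
    intro p hp t
    refine ⟨wj_le_one3 X ℓ ℓ hℓ hdeg hpar' hm hfin ι Vι _ w SG hh J hJ p t K (hK p.1),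
      fun hvQ => ?_, fun hvQ hv => wj_split3 X ℓ ℓ hℓ hdeg hpar' hbig' hm hfin ι Vι _ w SG hh J hJ p
        t (hQ p.1 hvQ hp) (hfix p.1 hv hp)⟩
    have h1 := wj_le_one3 X ℓ ℓ hℓ hdeg hpar' hm hfin ι Vι (fun _ _ => True) w SG hh J hJ p t 1
      (hQ p.1 hvQ hp)
    rwa [Nat.cast_one] at h1
  -- the pairs
  have hpair : ∀ a b : k, eval a f = 0 → eval b f = 0 → a ≠ b →
      TBRbt (cdL X ℓ ℓ hm hfin ι Vι (fun _ _ => True) w (ggL X ℓ hm w SG hh)) (1 / ℓ)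
        {p : Pr k × Fin ℓ | ¬ ℓ ∣ (p.2 : ℕ)} ((ℓ - 1 : ℕ) : ℝ)
        {X.cmp hm (algebraMap k L a), X.cmp hm (algebraMap k L b)} := by
    intro a b ha hb hab
    obtain ⟨hℓ2, hO'⟩ := hO a b ha hb hab
    have hℓ3 : 3 ≤ ℓ := by
      have := hℓ.two_le
      omega
    have h23 : (2 : ℝ) / ℓ ≤ 1 - (1 / (ℓ : ℝ)) ^ X.Ω.card := by
      have h3 : (3 : ℝ) ≤ ℓ := by exact_mod_cast hℓ3
      have h4 : (1 / (ℓ : ℝ)) ^ X.Ω.card ≤ 1 / ℓ := by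
        refine pow_le_of_le_one (by positivity) ?_ (by omega)
        rw [div_le_one hℓ0]
        linarith
      have h5 : (3 : ℝ) / ℓ ≤ 1 := by
        rw [div_le_one hℓ0]
        exact h3
      have h6 : (2 : ℝ) / ℓ + 1 / ℓ = 3 / ℓ := by ring
      linarith
    rw [hκ]
    refine Eq.mpr (congrArg (fun R : Set (Pr k × Fin ℓ) =>
      TBRbt (cdL X ℓ ℓ hm hfin ι Vι (fun _ _ => True) w (ggL X ℓ hm w SG hh)) (1 / ℓ) R _
        {X.cmp hm (algebraMap k L a), X.cmp hm (algebraMap k L b)}) hset) ?_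
    refine tbr_gen X ℓ ℓ hℓ K hδs hB₀ hCs h2 _ ⟨_, hE⟩ hm hfin ι Vι (fun _ _ => True) w SG hh Q hB
      ?_ hC _ (Finset.insert_nonempty _ _) (fun v _ _ => hR₀ v) ?_
    · rw [hΩeq]
      exact hδ
    intro p hp t
    have ho : ∃ θ ∈ X.Ω, θ ≠ algebraMap k L a ∧ θ ≠ algebraMap k L b ∧
        ∃ n : ℕ, ¬ ℓ ∣ n ∧ (X.F p.1 ^ n) θ = θ := by
      obtain ⟨θ, h1, h2⟩ := hO' (X.F p.1)
      exact ⟨θ, (X.mem_Ω θ).2 h1, h2⟩
    have key : ∀ c : ℕ, (∀ t, (Vι p.1 t).card ≤ c) →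
        WJbt (cdL X ℓ ℓ hm hfin ι Vι (fun _ _ => True) w (ggL X ℓ hm w SG hh)) (1 / ℓ)
          {X.cmp hm (algebraMap k L a), X.cmp hm (algebraMap k L b)} t p ≤
          c * (1 - (1 / (ℓ : ℝ)) ^ X.Ω.card) := fun c hc =>
      (wj_pair X ℓ ℓ hℓ hdeg hm hfin ι Vι _ w SG hh ha hb hab p ho t c hc).trans
        (mul_le_mul_of_nonneg_left h23 (Nat.cast_nonneg c))
    refine ⟨(key K (hK p.1)).trans ?_, fun hvQ => ?_, fun hvQ _ => ?_⟩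
    · have hK0 : (0 : ℝ) ≤ K := Nat.cast_nonneg K
      nlinarith
    · have h1 := key 1 (hQ p.1 hvQ hp)
      rw [Nat.cast_one, one_mul] at h1
      linarith
    · have h1 := key 1 (hQ p.1 hvQ hp)
      rwa [Nat.cast_one, one_mul] at h1
  have hrat : ∀ a : k, eval a f = 0 → ∀ J : Finset (Fin X.m),
      X.cmp hm (algebraMap k L a) ∈ J → J ≠ {X.cmp hm (algebraMap k L a)} →
      TBRbt (cdL X ℓ ℓ hm hfin ι Vι (fun _ _ => True) w (ggL X ℓ hm w SG hh)) (1 / ℓ)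
        {p : Pr k × Fin ℓ | ¬ ℓ ∣ (p.2 : ℕ)} ((ℓ - 1 : ℕ) : ℝ) J := by
    intro a ha J hJ hne
    rcases TW3.three_or5 X hm ha J hJ hne with h | ⟨b, hb, hab, rfl⟩
    · exact hbigJ J h
    · exact hpair a b ha hb hab
  have hmemV : ∀ p : Pr k × Fin ℓ, ∀ o : (Σ _ : L × rootsOfUnity ℓ k, ι),
      o ∈ (cdL X ℓ ℓ hm hfin ι Vι (fun _ _ => True) w (ggL X ℓ hm w SG hh)).V p → o.1.1 ∈ X.Ω := by
    intro p o ho
    exact mem_VL X ℓ ℓ hm hfin ι Vι _ w _ p o ho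
  refine ⟨by rw [hset, hκ]; exact sysL hMe _ _ hB₀ h2,
    ⟨_, card_V_le X ℓ ℓ hm hfin ι Vι _ w (ggL X ℓ hm w SG hh) K hK⟩, fun a ha => ⟨?_, ?_⟩,
    fun J => ?_, hrat⟩
  · intro (q : Pr k × Fin ℓ) (o : (Σ _ : L × rootsOfUnity ℓ k, ι)) ho
      (o' : (Σ _ : L × rootsOfUnity ℓ k, ι)) ho' h h' (p : Pr k × Fin ℓ) (i : L)
    have e1 : o.1.1 = algebraMap k L a := X.eq_rat_of_cmp22 hm ha (hmemV q o ho) h
    have e2 : o'.1.1 = algebraMap k L a := X.eq_rat_of_cmp22 hm ha (hmemV q o' ho') h'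
    change chl X ℓ p.1 (X.len p.1 i) (aeval i (X.B q.1 o.1.1)) ^ w o.1.1 q.2 =
      chl X ℓ p.1 (X.len p.1 i) (aeval i (X.B q.1 o'.1.1)) ^ w o'.1.1 q.2
    rw [e1, e2]
  · intro (q : Pr k × Fin ℓ) (o : (Σ _ : L × rootsOfUnity ℓ k, ι)) ho h
    have e1 : o.1.1 = algebraMap k L a := X.eq_rat_of_cmp22 hm ha (hmemV q o ho) h
    change ((X.R q.1).filter fun ρ => X.cmp hm ρ = X.cmp hm (algebraMap k L a)).erase o.1.1 = ∅
    rw [Finset.eq_empty_iff_forall_notMem]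
    intro ρ hρ
    rw [Finset.mem_erase, Finset.mem_filter] at hρ
    refine hρ.1 ?_
    rw [e1]
    exact X.eq_rat_of_cmp22 hm ha (X.R_sub22 hρ.2.1) hρ.2.2
  · by_cases hJ : ∃ a : k, eval a f = 0 ∧ X.cmp hm (algebraMap k L a) ∈ J
    · obtain ⟨a, ha, haJ⟩ := hJ
      by_cases hne : J = {X.cmp hm (algebraMap k L a)}
      · exact Or.inl ⟨a, ha, hne⟩
      · exact Or.inr (Or.inr (hrat a ha J haJ hne))
    · right
      rcases Nat.lt_or_ge (X.ΩJ5 hm J).card 5 with h | h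
      · left
        obtain ⟨δ', C', Q', hδ', hQ', hC'⟩ := hDer k L (X.ΩJ5 hm J) (stab_ΩJ X hm J) (by
            rintro θ hθ b rfl
            rw [Ctx.mem_ΩJ5] at hθ
            have h3 := hθ.1
            rw [Ctx.mem_Ω, mem_rootSet] at h3
            have h4 := h3.2
            rw [aeval_algebraMap_apply, map_eq_zero] at h4
            exact hJ ⟨b, by rw [← h4]; rfl, hθ.2⟩) (by omega) B₀ hB₀
        refine Eq.mpr (congrArg (fun R : Set (Pr k × Fin ℓ) =>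
          TAR (cdL X ℓ ℓ hm hfin ι Vι (fun _ _ => True) w (ggL X ℓ hm w SG hh)) R J) hset) ?_
        refine tarL X ℓ ℓ hm hfin ι Vι (fun _ _ => True) w (ggL X ℓ hm w SG hh) J _ R₀ ⟨1, hℓ.one_lt⟩
          hE hB₀ Q' hδ' hC' ?_
        intro v hv hgd
        refine ⟨hR₀ v, fun θ hθ _ => ?_⟩
        have h8 := X.FJ_sub_ΩJ5 hm J v hθ
        rw [Ctx.mem_FJ5] at hθ
        refine hQ' v hv (X.P v) (X.comap v) θ h8 ?_
        have h9 := X.frob v θ (X.val_root hgd hθ.1.1)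
        rw [hθ.1.2, Valuation.map_sub_swap] at h9
        exact h9
      · exact Or.inr (hbigJ J (by omega))

end Pool.Agent.PD
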