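import Pool.Agent.Helper13.PD.Pencil
import Pool.Agent.Helper28.PD.Defs

/-!
# Project PD (MP_e66f84_ag), block GCL: cyclic covers of the line

`y ^ ℓ = f(x)`, `ℓ` prime, `f` any polynomial over a field `k` of characteristic zero such that there
are at least three branch points: `f(x) ^ (1 / ℓ)` is not in `kbar(x)`, and
`kbar(x, f(x) ^ (1 / ℓ))` is not rational: otherwise at least three (four, if `ℓ = 2`) members of a
pencil are `ℓ`-th powers.
-/

set_option autoImplicit false

namespace Pool.Agent.PDL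

open Polynomial VC Pool.Agent.L

section hom

variable {E Ω : Type*} [Field E] [Field Ω] [Algebra E Ω]

open scoped Classical in
/-- the number of the branch points -/
private noncomputable def nb13 {E : Type*} [Field E] (ℓ : ℕ) (f : E[X]) : ℕ :=
  (f.roots.toFinset.filter fun θ => ¬ ℓ ∣ f.rootMultiplicity θ).card +
    if ℓ ∣ f.natDegree then 0 else 1

open scoped Classical in
private theorem nb_card13 {ℓ : ℕ} {f : E[X]} (hf : f ≠ 0) :
    Nat.card {θ : E // ¬ ℓ ∣ f.rootMultiplicity θ} =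
      (f.roots.toFinset.filter fun θ => ¬ ℓ ∣ f.rootMultiplicity θ).card := by
  refine Nat.subtype_card _ fun θ => ?_
  rw [Finset.mem_filter, Multiset.mem_toFinset, mem_roots hf]
  refine ⟨fun h => h.2, fun h => ⟨?_, h⟩⟩
  by_contra h0
  rw [rootMultiplicity_eq_zero h0] at h
  exact h (dvd_zero ℓ)

/-- the degree is the sum of the multiplicities -/
private theorem sum_mult13 [IsAlgClosed E] (f : E[X]) : open scoped Classical in
    ∑ θ ∈ f.roots.toFinset, f.rootMultiplicity θ = f.natDegree := by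
  classical
  have h1 := Multiset.toFinset_sum_count_eq f.roots
  rw [splits_iff_card_roots.1 (IsAlgClosed.splits f)] at h1
  rw [← h1]
  exact Finset.sum_congr rfl fun θ _ => (count_roots f).symm

/-- the numerical condition of `pencil_core` -/
private theorem num13 [IsAlgClosed E] {ℓ : ℕ} (hℓ : ℓ.Prime) {f : E[X]} (h3 : 3 ≤ nb13 ℓ f) :
    2 * ℓ ≤ nb13 ℓ f * (ℓ - 1) := by
  classical
  obtain ⟨m, rfl⟩ : ∃ m, ℓ = m + 1 := ⟨ℓ - 1, by have := hℓ.pos; omega⟩
  rw [Nat.add_sub_cancel]
  have h2 := hℓ.two_le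
  by_cases hm : m = 1
  · subst hm
    -- the number is even
    have h4 : Even (nb13 (1 + 1) f) := by
      have h5 := Finset.odd_sum_iff_odd_card_odd (s := f.roots.toFinset)
        fun θ => f.rootMultiplicity θ
      rw [sum_mult13] at h5
      have h6 : (f.roots.toFinset.filter fun θ => ¬ (1 + 1) ∣ f.rootMultiplicity θ) =
          f.roots.toFinset.filter fun θ => Odd (f.rootMultiplicity θ) := by
        refine Finset.filter_congr fun θ _ => ?_
        rw [← Nat.not_even_iff_odd, even_iff_two_dvd]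
        exact Iff.rfl
      unfold nb13
      rw [h6]
      split_ifs with h7
      · rw [add_zero, ← Nat.not_odd_iff_even, ← h5, Nat.not_odd_iff_even]
        exact even_iff_two_dvd.2 h7
      · have h8 : Odd f.natDegree := by
          rw [← Nat.not_even_iff_odd, even_iff_two_dvd]
          exact h7
        exact (h5.1 h8).add_one
    obtain ⟨a, ha⟩ := h4
    omega
  · have h4 : 3 * m ≤ nb13 (m + 1) f * m := Nat.mul_le_mul_right _ h3
    omega

/-- the homogenization: members of the pencil of `A` and `B` are `ℓ`-th powers -/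
private theorem pow_of13 [IsAlgClosed E] {ℓ : ℕ} (hℓ : ℓ.Prime) {f : E[X]} (hf0 : f ≠ 0)
    {y : Ω} (hy : Transcendental E y) {A B U V : E[X]}
    (hAB : IsCoprime A B) (hne : ∀ θ : E, A - C θ * B ≠ 0) (hB : B ≠ 0) (hV : V ≠ 0)
    (h : (aeval y U / aeval y V) ^ ℓ = aeval (aeval y A / aeval y B) f) :
    (∀ θ : E, ¬ ℓ ∣ f.rootMultiplicity θ → ∃ s : E[X], Associated (s ^ ℓ) (A - C θ * B)) ∧
      (¬ ℓ ∣ f.natDegree → ∃ s : E[X], Associated (s ^ ℓ) B) := by
  classical
  have hinj : Function.Injective (aeval (R := E) y) := transcendental_iff_injective.1 hy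
  have hBy : aeval y B ≠ 0 := fun h0 => hB (hinj (by rw [h0, map_zero]))
  have hVy : aeval y V ≠ 0 := fun h0 => hV (hinj (by rw [h0, map_zero]))
  have hfT : f = C f.leadingCoeff * ∏ θ ∈ f.roots.toFinset, (X - C θ) ^ f.rootMultiplicity θ := by
    have h1 := C_leadingCoeff_mul_prod_multiset_X_sub_C (p := f)
      ((splits_iff_card_roots).1 (IsAlgClosed.splits f))
    conv_lhs => rw [← h1]
    rw [prod_multiset_root_eq_finset_root]
  have hdeg := sum_mult13 f
  obtain ⟨d, hd⟩ : ∃ d, d = f.natDegree := ⟨_, rfl⟩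
  rw [← hd] at hdeg ⊢
  obtain ⟨G, hG⟩ : ∃ G : E[X], G = C f.leadingCoeff *
      ∏ θ ∈ f.roots.toFinset, (A - C θ * B) ^ f.rootMultiplicity θ := ⟨_, rfl⟩
  -- the homogenization
  have h1 : aeval (aeval y A / aeval y B) f * aeval y B ^ d = aeval y G := by
    rw [hG]
    conv_lhs => rw [hfT]
    rw [map_mul, map_mul, map_prod, map_prod, aeval_C, aeval_C, mul_assoc, ← hdeg,
      ← Finset.prod_pow_eq_pow_sum, ← Finset.prod_mul_distrib]
    congr 1
    refine Finset.prod_congr rfl fun θ _ => ?_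
    rw [map_pow, map_pow, ← mul_pow, map_sub, map_sub, map_mul, aeval_X, aeval_C, aeval_C]
    congr 1
    field_simp
  have h2 : U ^ ℓ * B ^ d = V ^ ℓ * G := by
    apply hinj
    rw [map_mul, map_mul, map_pow, map_pow, map_pow, ← h1, ← h, div_pow]
    field_simp
  obtain ⟨m, hm⟩ : ∃ m, ℓ = m + 1 := ⟨ℓ - 1, by have := hℓ.pos; omega⟩
  have h2' : (U * B ^ d) ^ ℓ = V ^ ℓ * (G * B ^ (d * m)) := by
    rw [mul_pow, ← pow_mul]
    calc U ^ ℓ * B ^ (d * ℓ) = (U ^ ℓ * B ^ d) * B ^ (d * m) := by
          rw [hm]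
          ring
      _ = _ := by
          rw [h2]
          ring
  have h3 : V ∣ U * B ^ d := by
    refine (IsIntegrallyClosed.pow_dvd_pow_iff hℓ.ne_zero).1 ?_
    rw [h2']
    exact dvd_mul_right _ _
  obtain ⟨S, hS⟩ := h3
  rw [hS, mul_pow] at h2'
  have h4 := mul_left_cancel₀ (pow_ne_zero ℓ hV) h2'
  have hcop : ∀ θ θ' : E, θ ≠ θ' → IsCoprime (A - C θ * B) (A - C θ' * B) := by
    intro θ θ' hne
    obtain ⟨a, b, hab⟩ := hAB
    have h0 : θ' - θ ≠ 0 := sub_ne_zero.2 hne.symm
    have h1 : C (θ' - θ)⁻¹ * (C θ' - C θ) = (1 : E[X]) := by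
      rw [← C_sub, ← C_mul, inv_mul_cancel₀ h0, C_1]
    refine ⟨C (θ' - θ)⁻¹ * (a * C θ' + b), -(C (θ' - θ)⁻¹ * (a * C θ + b)), ?_⟩
    linear_combination (C (θ' - θ)⁻¹ * (C θ' - C θ)) * hab + h1
  have hcopB : ∀ θ : E, IsCoprime (A - C θ * B) B := by
    intro θ
    obtain ⟨a, b, hab⟩ := hAB
    exact ⟨a, b + a * C θ, by linear_combination hab⟩
  have hu : IsUnit (C f.leadingCoeff : E[X]) := isUnit_C.2 (leadingCoeff_ne_zero.2 hf0).isUnit
  have hcu : ∀ P : E[X], IsCoprime P (C f.leadingCoeff) := by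
    intro P
    obtain ⟨w, hw⟩ := hu
    exact ⟨0, ((w⁻¹ : E[X]ˣ) : E[X]), by rw [zero_mul, zero_add, ← hw, Units.inv_mul]⟩
  refine ⟨fun θ hθ => ?_, fun hd' => ?_⟩
  · have hθr : θ ∈ f.roots.toFinset := by
      rw [Multiset.mem_toFinset, mem_roots hf0]
      by_contra h0
      rw [rootMultiplicity_eq_zero h0] at hθ
      exact hθ (dvd_zero ℓ)
    have h6 : (A - C θ * B) ^ f.rootMultiplicity θ * (C f.leadingCoeff *
        (∏ θ' ∈ f.roots.toFinset.erase θ, (A - C θ' * B) ^ f.rootMultiplicity θ') *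
          B ^ (d * m)) = S ^ ℓ := by
      rw [h4, hG, ← Finset.mul_prod_erase _ _ hθr]
      ring
    obtain ⟨s, hs⟩ := exists_associated_pow_of_mul_eq_pow' (IsCoprime.pow_left
      (IsCoprime.mul_right (IsCoprime.mul_right (hcu _) (IsCoprime.prod_right fun θ' hθ' =>
        IsCoprime.pow_right (hcop θ θ' (by
          rw [Finset.mem_erase] at hθ'
          exact hθ'.1.symm)))) (IsCoprime.pow_right (hcopB θ)))) h6
    exact root_ext13 (hne θ) hℓ hθ hs
  · have h6 : B ^ (d * m) * G = S ^ ℓ := by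
      rw [h4, mul_comm]
    have hcG : IsCoprime (B ^ (d * m)) G := by
      rw [hG]
      refine IsCoprime.pow_left (IsCoprime.mul_right (hcu _) (IsCoprime.prod_right fun θ _ =>
        IsCoprime.pow_right (hcopB θ).symm))
    obtain ⟨s, hs⟩ := exists_associated_pow_of_mul_eq_pow' hcG h6
    refine root_ext13 hB hℓ (m := d * m) (fun h7 => ?_) hs
    rcases hℓ.dvd_mul.1 h7 with h8 | h8
    · exact hd' h8
    · have h9 := Nat.le_of_dvd (by have := hℓ.two_le; omega) h8
      omega

/-- an `ℓ`-th power in the field `E(y)` -/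
private theorem der13 [IsAlgClosed E] [CharZero E] {ℓ : ℕ} (hℓ : ℓ.Prime) {f : E[X]} (hf0 : f ≠ 0)
    (h3 : 3 ≤ nb13 ℓ f) {y : Ω} (hy : Transcendental E y) {A B U V : E[X]}
    (hAB : IsCoprime A B) (hne : ∀ θ : E, A - C θ * B ≠ 0) (hB : B ≠ 0) (hV : V ≠ 0)
    (h : (aeval y U / aeval y V) ^ ℓ = aeval (aeval y A / aeval y B) f) :
    derivative A = 0 ∧ derivative B = 0 := by
  classical
  obtain ⟨h1, h2⟩ := pow_of13 hℓ hf0 hy hAB hne hB hV h
  obtain ⟨T₁, hT₁⟩ : ∃ T₁ : Finset (E × E), T₁ = (f.roots.toFinset.filter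
      fun θ => ¬ ℓ ∣ f.rootMultiplicity θ).image fun θ => ((1 : E), -θ) := ⟨_, rfl⟩
  obtain ⟨T₂, hT₂⟩ : ∃ T₂ : Finset (E × E), T₂ = if ℓ ∣ f.natDegree then ∅ else {(0, 1)} :=
    ⟨_, rfl⟩
  have hm₁ : ∀ p ∈ T₁, ∃ θ : E, ¬ ℓ ∣ f.rootMultiplicity θ ∧ p = (1, -θ) := by
    intro p hp
    rw [hT₁] at hp
    obtain ⟨θ, hθ, rfl⟩ := Finset.mem_image.1 hp
    exact ⟨θ, (Finset.mem_filter.1 hθ).2, rfl⟩
  have hm₂ : ∀ p ∈ T₂, ¬ ℓ ∣ f.natDegree ∧ p = (0, 1) := by
    intro p hp
    rw [hT₂] at hp
    split_ifs at hp with h5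
    · exact absurd hp (Finset.notMem_empty p)
    · exact ⟨h5, Finset.mem_singleton.1 hp⟩
  have hdis : Disjoint T₁ T₂ := by
    rw [Finset.disjoint_left]
    intro p hp hp'
    obtain ⟨θ, -, h5⟩ := hm₁ p hp
    rw [(hm₂ p hp').2] at h5
    exact zero_ne_one (congrArg Prod.fst h5)
  have hcard : (T₁ ∪ T₂).card = nb13 ℓ f := by
    rw [Finset.card_union_of_disjoint hdis]
    unfold nb13
    congr 1
    · rw [hT₁]
      refine Finset.card_image_of_injective _ fun θ θ' h5 => ?_
      exact neg_injective (congrArg Prod.snd h5)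
    · rw [hT₂]
      split_ifs <;> simp
  refine pencil_core hℓ.two_le hAB (T₁ ∪ T₂) ?_ ?_ ?_
  · intro p hp q hq hpq
    rw [Finset.mem_union] at hp hq
    rcases hp with hp | hp <;> rcases hq with hq | hq
    · obtain ⟨θ, -, rfl⟩ := hm₁ p hp
      obtain ⟨θ', -, rfl⟩ := hm₁ q hq
      intro h5
      apply hpq
      have h6 : θ = θ' := by
        dsimp only at h5
        linear_combination h5
      rw [h6]
    · obtain ⟨θ, -, rfl⟩ := hm₁ p hp
      obtain ⟨-, rfl⟩ := hm₂ q hq
      simp
    · obtain ⟨-, rfl⟩ := hm₂ p hp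
      obtain ⟨θ, -, rfl⟩ := hm₁ q hq
      simp
    · rw [(hm₂ p hp).2, (hm₂ q hq).2] at hpq
      exact absurd rfl hpq
  · rw [hcard]
    exact num13 hℓ h3
  · intro p hp
    rw [Finset.mem_union] at hp
    rcases hp with hp | hp
    · obtain ⟨θ, hθ, rfl⟩ := hm₁ p hp
      obtain ⟨s, hs⟩ := h1 θ hθ
      refine ⟨s, ?_⟩
      dsimp only
      rw [C_1, one_mul, C_neg, neg_mul, ← sub_eq_add_neg]
      exact hs
    · obtain ⟨hd, rfl⟩ := hm₂ p hp
      obtain ⟨s, hs⟩ := h2 hd
      refine ⟨s, ?_⟩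
      dsimp only
      rw [C_0, zero_mul, C_1, one_mul, zero_add]
      exact hs

end hom

section final

/-- an element of `E(y)` is a quotient of polynomials in `y` -/
private theorem quot13 {E Ω : Type*} [Field E] [Field Ω] [Algebra E Ω] {y z : Ω}
    (hy : Transcendental E y) (hz : z ∈ IntermediateField.adjoin E {y}) :
    ∃ A B : E[X], IsCoprime A B ∧ B ≠ 0 ∧ z = aeval y A / aeval y B := by
  classical
  obtain ⟨r, s, hrs⟩ := (IntermediateField.mem_adjoin_simple_iff E z).1 hz
  by_cases hs : s = 0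
  · refine ⟨0, 1, isCoprime_one_right, one_ne_zero, ?_⟩
    rw [hrs, hs, map_zero, div_zero, zero_div]
  · have hinj : Function.Injective (aeval (R := E) y) := transcendental_iff_injective.1 hy
    have hg : EuclideanDomain.gcd r s ≠ 0 := fun h0 => hs (EuclideanDomain.gcd_eq_zero_iff.1 h0).2
    obtain ⟨A, hA⟩ := EuclideanDomain.gcd_dvd_left r s
    obtain ⟨B, hB⟩ := EuclideanDomain.gcd_dvd_right r s
    have hB0 : B ≠ 0 := by
      rintro rfl
      rw [mul_zero] at hB
      exact hs hB
    refine ⟨A, B, ?_, hB0, ?_⟩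
    · refine ⟨EuclideanDomain.gcdA r s, EuclideanDomain.gcdB r s, ?_⟩
      apply mul_left_cancel₀ hg
      have h1 := EuclideanDomain.gcd_eq_gcd_ab r s
      rw [mul_one]
      conv_rhs => rw [h1]
      linear_combination (-EuclideanDomain.gcdA r s) * hA - (EuclideanDomain.gcdB r s) * hB
    · have hgy : aeval y (EuclideanDomain.gcd r s) ≠ 0 := fun h0 => hg (hinj (by rw [h0, map_zero]))
      have hBy : aeval y B ≠ 0 := fun h0 => hB0 (hinj (by rw [h0, map_zero]))
      have h1 := congrArg (aeval y) hA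
      have h2 := congrArg (aeval y) hB
      rw [map_mul] at h1 h2
      rw [hrs, h1, h2, mul_div_mul_left _ _ hgy]

/-- for prime `ℓ` the smaller powers of `r` lie in a subfield with `r ^ ℓ` only if `r` does -/
private theorem mem_pow13 {F : Type} [Field F] (T : Subfield F) {ℓ i : ℕ} (hℓ : ℓ.Prime)
    (hi : 0 < i) (hil : i < ℓ) {r : F} (h1 : r ^ ℓ ∈ T) (h2 : r ^ i ∈ T) : r ∈ T := by
  by_cases hr : r = 0
  · rw [hr]
    exact zero_mem T
  have hco : IsCoprime (i : ℤ) (ℓ : ℤ) := by
    rw [Nat.isCoprime_iff_coprime]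
    exact ((Nat.Prime.coprime_iff_not_dvd hℓ).2 fun h => absurd (Nat.le_of_dvd hi h) (by omega)).symm
  obtain ⟨a, b, hab⟩ := hco
  have h3 : r = (r ^ i) ^ a * (r ^ ℓ) ^ b := by
    rw [← zpow_natCast, ← zpow_natCast, ← zpow_mul, ← zpow_mul, ← zpow_add₀ hr,
      mul_comm (i : ℤ) a, mul_comm (ℓ : ℤ) b, hab, zpow_one]
  rw [h3]
  exact mul_mem (zpow_mem h2 a) (zpow_mem h1 b)

/-- **BLOCK GCL** -/
theorem gCL : PD.StmtGCL := by
  intro k _ _ ℓ f hℓ hf h5
  set K := FractionRing k[X] with hK
  set Ω := AlgebraicClosure K with hΩ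
  have : CharZero Ω := charZero_of_injective_algebraMap (algebraMap k Ω).injective
  let E := algebraicClosure k Ω
  have hEc : IsAlgClosed E := (algebraicClosure.isAlgClosure k Ω).isAlgClosed
  have : CharZero E := charZero_of_injective_algebraMap (algebraMap k E).injective
  -- the variable
  let x₀ : K := algebraMap k[X] K X
  let x : Ω := algebraMap K Ω x₀
  have hx₀ : Transcendental k x₀ := by
    rw [transcendental_algebraMap_iff (IsFractionRing.injective k[X] K)]
    exact transcendental_X k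
  have hxk : Transcendental k x :=
    (transcendental_algebraMap_iff (algebraMap K Ω).injective).2 hx₀
  have hx : Transcendental E x := hxk.algebraicClosure
  have hgen : IntermediateField.adjoin k {x₀} = ⊤ := by
    rw [eq_top_iff]
    intro z _
    have hpoly : ∀ p : k[X], algebraMap k[X] K p ∈ IntermediateField.adjoin k {x₀} := by
      intro p
      have h1 : algebraMap k[X] K p = aeval x₀ p := by
        rw [aeval_algebraMap_apply, aeval_X_left_apply]
      rw [h1]
      exact (IntermediateField.algebra_adjoin_le_adjoin _ _) (aeval_mem_adjoin_singleton _ _)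
    obtain ⟨p, q, _, rfl⟩ := IsFractionRing.div_surjective (A := k[X]) z
    exact div_mem (hpoly p) (hpoly q)
  have hcst : (cst k K : Set Ω) = Set.range (algebraMap E Ω) := by
    ext z
    constructor
    · intro hz
      exact ⟨⟨z, mem_algebraicClosure_iff.2 hz⟩, rfl⟩
    · rintro ⟨z, rfl⟩
      exact mem_algebraicClosure_iff.1 z.2
  -- the field `E(x)`
  have hKx : ∀ z : K, algebraMap K Ω z ∈ IntermediateField.adjoin E {x} := by
    intro z
    have hz : z ∈ IntermediateField.adjoin k {x₀} := by rw [hgen]; trivial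
    obtain ⟨r, s, rfl⟩ := (IntermediateField.mem_adjoin_simple_iff k z).1 hz
    have hpoly : ∀ p : k[X], algebraMap K Ω (aeval x₀ p) ∈ IntermediateField.adjoin E {x} := by
      intro p
      have h1 : algebraMap K Ω (aeval x₀ p) = aeval x (p.map (algebraMap k E)) := by
        rw [aeval_map_algebraMap]
        exact (aeval_algebraMap_apply Ω x₀ p).symm
      rw [h1]
      exact (IntermediateField.algebra_adjoin_le_adjoin _ _) (aeval_mem_adjoin_singleton _ _)
    rw [map_div₀]
    exact div_mem (hpoly r) (hpoly s)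
  set fE := f.map (algebraMap k E) with hfE
  have hf0 : fE ≠ 0 := (Polynomial.map_ne_zero_iff (algebraMap k E).injective).2 hf
  have hnb : 3 ≤ nb13 ℓ fE := by
    have hcl : IsAlgClosure k E := algebraicClosure.isAlgClosure k Ω
    let e : AlgebraicClosure k ≃ₐ[k] E := IsAlgClosure.equiv k (AlgebraicClosure k) E
    have he : fE = (f.map (algebraMap k (AlgebraicClosure k))).map
        (e : AlgebraicClosure k →+* E) := by
      have h7 : algebraMap k E = (e : AlgebraicClosure k →+* E).comp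
          (algebraMap k (AlgebraicClosure k)) := RingHom.ext fun a => (e.commutes a).symm
      rw [hfE, map_map, ← h7]
    have h6 : Nat.card {θ : AlgebraicClosure k //
        ¬ ℓ ∣ (f.map (algebraMap k (AlgebraicClosure k))).rootMultiplicity θ} =
        Nat.card {θ : E // ¬ ℓ ∣ fE.rootMultiplicity θ} := by
      refine Nat.card_congr (Equiv.subtypeEquiv e.toEquiv fun θ => ?_)
      rw [he, eq_rootMultiplicity_map (f := (e : AlgebraicClosure k →+* E)) e.injective θ]
      rfl
    unfold PD.nBr at h5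
    rw [h6, nb_card13 hf0] at h5
    unfold nb13
    rw [show fE.natDegree = f.natDegree from natDegree_map _]
    exact h5
  have hfx : algebraMap K Ω (algebraMap k[X] K f) = aeval x fE := by
    rw [hfE, aeval_map_algebraMap, aeval_algebraMap_apply, aeval_algebraMap_apply,
      aeval_X_left_apply]
  refine ⟨⟨x₀, hx₀, ?_⟩, ?_, ?_⟩
  · rw [hgen]
    refine Module.Finite.of_surjective (R := (⊤ : IntermediateField k K))
      (M := (⊤ : IntermediateField k K))
      (Algebra.linearMap (⊤ : IntermediateField k K) K) ?_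
    intro z
    exact ⟨⟨z, IntermediateField.mem_top⟩, rfl⟩
  · intro r hr i hi hil hmem₀
    have hmem : r ∈ Subfield.closure (cst k K ∪ Set.range (algebraMap K Ω)) := by
      refine mem_pow13 _ hℓ hi hil ?_ hmem₀
      rw [hr]
      exact Subfield.subset_closure (Or.inr ⟨_, rfl⟩)
    have hmem' : r ∈ IntermediateField.adjoin E {x} := by
      have hle : Subfield.closure (cst k K ∪ Set.range (algebraMap K Ω)) ≤
          (IntermediateField.adjoin E {x}).toSubfield := by
        rw [Subfield.closure_le]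
        rintro z (hz | ⟨z, rfl⟩)
        · rw [hcst] at hz
          obtain ⟨z, rfl⟩ := hz
          exact (IntermediateField.adjoin E {x}).algebraMap_mem z
        · exact hKx z
      exact hle hmem
    obtain ⟨U, V, hUV, hV, hr'⟩ := quot13 hx hmem'
    have h1 := der13 (U := U) (V := V) (A := X) (B := 1) hℓ hf0 hnb hx
      isCoprime_one_right (fun θ => by rw [mul_one]; exact X_sub_C_ne_zero θ) one_ne_zero hV
      (by rw [← hr', hr, hfx, aeval_X, map_one, div_one])
    rw [derivative_X] at h1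
    exact one_ne_zero h1.1
  · intro r hr y heq
    have hmem : ∀ z ∈ cst k K ∪ Set.range (algebraMap K Ω) ∪ {r},
        z ∈ IntermediateField.adjoin E {y} := by
      intro z hz
      have h1 : z ∈ Subfield.closure (cst k K ∪ {y}) := by
        rw [← heq]
        exact Subfield.subset_closure hz
      rw [hcst] at h1
      exact h1
    have hxm : x ∈ IntermediateField.adjoin E {y} := hmem x (Or.inl (Or.inr ⟨x₀, rfl⟩))
    have hrm : r ∈ IntermediateField.adjoin E {y} := hmem r (Or.inr rfl)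
    have hy : Transcendental E y := by
      intro hy
      have h1 : Algebra.IsAlgebraic E (IntermediateField.adjoin E {y}) :=
        IntermediateField.isAlgebraic_adjoin_simple hy.isIntegral
      have h3 := h1.isAlgebraic ⟨x, hxm⟩
      exact hx (h3.algebraMap (A := Ω))
    obtain ⟨A, B, hAB, hB, hxAB⟩ := quot13 hy hxm
    obtain ⟨U, V, hUV, hV, hr'⟩ := quot13 hy hrm
    have hAB0 : ∀ θ : E, A - C θ * B ≠ 0 := by
      intro θ h0
      have hBy : aeval y B ≠ 0 := fun h1 =>
        hB ((transcendental_iff_injective.1 hy) (by rw [h1, map_zero]))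
      have h1 : x = algebraMap E Ω θ := by
        rw [hxAB, sub_eq_zero.1 h0, map_mul, aeval_C, mul_div_cancel_right₀ _ hBy]
      rw [h1] at hx
      exact hx (isAlgebraic_algebraMap θ)
    obtain ⟨hA', hB'⟩ := der13 (U := U) (V := V) hℓ hf0 hnb hy hAB hAB0 hB hV
      (by rw [← hr', hr, hfx, ← hxAB])
    have hAc := derivative_eq_zero.1 hA'
    have hBc := derivative_eq_zero.1 hB'
    rw [eq_C_of_natDegree_eq_zero hAc, eq_C_of_natDegree_eq_zero hBc, aeval_C, aeval_C,
      ← map_div₀] at hxAB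
    rw [hxAB] at hx
    exact hx (isAlgebraic_algebraMap _)

end final

end Pool.Agent.PDL
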