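import Pool.Agent.Helper13.PD.GCL
import Pool.Agent.Helper45.PD.Defs2

/-!
# Project PD, block GCL in the form of `Helper45/PD/Defs2`
-/

set_option autoImplicit false

namespace Pool.Agent.PDL

theorem gCLn : StmtGCL := by
  intro k _ _ ℓ f hℓ h3
  refine gCL k ℓ f hℓ ?_ h3
  rintro rfl
  have h4 : numBr k (AlgebraicClosure k) ℓ (0 : Polynomial k) = 0 := by
    unfold numBr IsBr
    simp
  omega

end Pool.Agent.PDL
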