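import Mathlib

/-!
# Project PD (MP_e66f84_ag), block GCL: powers in a pencil

`y ^ ℓ = f(x)`, `ℓ` prime, `f` any polynomial over a number field such that there are at least three
branch points: `f(x) ^ (1 / ℓ)` is not in `kbar(x)`, and `kbar(x, f(x) ^ (1 / ℓ))` is not rational.
Otherwise at least three members `a A + b B` of a pencil would be `ℓ`-th powers.
-/

set_option autoImplicit false

namespace Pool.Agent.PDL

open Polynomial

section core

variable {E : Type*} [Field E]

/-- a factor of a power divides the Wronskian -/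
theorem dvd_wr13 {ℓ : ℕ} (hℓ : 0 < ℓ) {P Q s : E[X]} (h : Associated (s ^ ℓ) P) :
    s ^ (ℓ - 1) ∣ wronskian P Q := by
  obtain ⟨u, rfl⟩ := h
  obtain ⟨m, rfl⟩ : ∃ m, ℓ = m + 1 := ⟨ℓ - 1, by omega⟩
  rw [wronskian, derivative_mul, derivative_pow, Nat.add_sub_cancel]
  refine ⟨s * u * derivative Q - (C ((m + 1 : ℕ) : E) * derivative s * (u : E[X]) +
    s * derivative (u : E[X])) * Q, ?_⟩
  ring

/-- The Wronskian argument for a pencil. -/
theorem pencil_core [CharZero E] {ℓ : ℕ} (hℓ : 2 ≤ ℓ) {A B : E[X]} (hAB : IsCoprime A B)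
    (T : Finset (E × E)) (hdet : ∀ p ∈ T, ∀ q ∈ T, p ≠ q → p.1 * q.2 - p.2 * q.1 ≠ 0)
    (hT : 2 * ℓ ≤ T.card * (ℓ - 1))
    (hpow : ∀ p ∈ T, ∃ s : E[X], Associated (s ^ ℓ) (C p.1 * A + C p.2 * B)) :
    derivative A = 0 ∧ derivative B = 0 := by
  classical
  rw [← hAB.wronskian_eq_zero_iff]
  by_contra hW
  obtain ⟨m, rfl⟩ : ∃ m, ℓ = m + 1 := ⟨ℓ - 1, by omega⟩
  rw [Nat.add_sub_cancel] at hT
  obtain ⟨P, hP⟩ : ∃ P : E × E → E[X], ∀ p, P p = C p.1 * A + C p.2 * B := ⟨_, fun _ => rfl⟩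
  have hT3 : 3 ≤ T.card := by
    by_contra hcon
    have h1 : T.card * m ≤ 2 * m := Nat.mul_le_mul_right _ (by omega)
    omega
  choose! s hs using hpow
  have hs' : ∀ p ∈ T, Associated (s p ^ (m + 1)) (P p) := fun p hp => by
    rw [hP]
    exact hs p hp
  have hWpq : ∀ p q, wronskian (P p) (P q) = C (p.1 * q.2 - p.2 * q.1) * wronskian A B := by
    intro p q
    rw [hP, hP, wronskian, wronskian, derivative_add, derivative_add, derivative_C_mul,
      derivative_C_mul, derivative_C_mul, derivative_C_mul, C_sub, C_mul, C_mul]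
    ring
  have hcop : ∀ p ∈ T, ∀ q ∈ T, p ≠ q → IsCoprime (P p) (P q) := by
    intro p hp q hq hne
    obtain ⟨a, b, hab⟩ := hAB
    have h0 := hdet p hp q hq hne
    have h1 : C (p.1 * q.2 - p.2 * q.1)⁻¹ * (C p.1 * C q.2 - C p.2 * C q.1) = (1 : E[X]) := by
      rw [← C_mul, ← C_mul, ← C_sub, ← C_mul, inv_mul_cancel₀ h0, C_1]
    refine ⟨C (p.1 * q.2 - p.2 * q.1)⁻¹ * (a * C q.2 - b * C q.1),
      C (p.1 * q.2 - p.2 * q.1)⁻¹ * (b * C p.1 - a * C p.2), ?_⟩
    rw [hP, hP]
    linear_combination (C (p.1 * q.2 - p.2 * q.1)⁻¹ * (C p.1 * C q.2 - C p.2 * C q.1)) * hab + h1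
  have hex : ∀ p, ∃ q ∈ T, q ≠ p := fun p => Finset.exists_mem_ne (by omega) p
  have hne : ∀ p ∈ T, P p ≠ 0 := by
    intro p hp h0
    obtain ⟨q, hq, hqp⟩ := hex p
    have h1 := hWpq p q
    rw [h0, wronskian_zero_left] at h1
    rcases mul_eq_zero.1 h1.symm with h2 | h2
    · exact hdet p hp q hq hqp.symm (C_eq_zero.1 h2)
    · exact hW h2
  have hs0 : ∀ p ∈ T, s p ≠ 0 := by
    intro p hp h0
    have h1 := hs' p hp
    rw [h0, zero_pow (by omega)] at h1
    exact hne p hp (h1.eq_zero_iff.1 rfl)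
  have hdeg : ∀ p ∈ T, (m + 1) * (s p).natDegree = (P p).natDegree := by
    intro p hp
    rw [← natDegree_eq_of_degree_eq (degree_eq_degree_of_associated (hs' p hp)), natDegree_pow]
  have hdvd : ∏ p ∈ T, s p ^ m ∣ wronskian A B := by
    refine Finset.prod_dvd_of_coprime ?_ fun p hp => ?_
    · intro p hp q hq hpq
      have h1 : s p ^ m ∣ P p := (pow_dvd_pow _ (Nat.le_succ m)).trans (hs' p hp).dvd
      have h2 : s q ^ m ∣ P q := (pow_dvd_pow _ (Nat.le_succ m)).trans (hs' q hq).dvd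
      exact ((hcop p hp q hq hpq).of_isCoprime_of_dvd_left h1).of_isCoprime_of_dvd_right h2
    · obtain ⟨q, hq, hqp⟩ := hex p
      have h1 := dvd_wr13 (Nat.succ_pos m) (Q := P q) (hs' p hp)
      rw [hWpq, Nat.succ_sub_one] at h1
      have h2 : IsUnit (C (p.1 * q.2 - p.2 * q.1) : E[X]) :=
        isUnit_C.2 (IsUnit.mk0 _ (hdet p hp q hq hqp.symm))
      exact h2.dvd_mul_left.1 h1
  have h1 := natDegree_le_of_dvd hdvd hW
  rw [natDegree_prod _ _ fun p hp => pow_ne_zero _ (hs0 p hp)] at h1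
  simp only [natDegree_pow] at h1
  rw [← Finset.mul_sum] at h1
  have hsum2 : (m + 1) * ∑ p ∈ T, (s p).natDegree = ∑ p ∈ T, (P p).natDegree := by
    rw [Finset.mul_sum]
    exact Finset.sum_congr rfl hdeg
  -- `m Σ deg P ≤ (m + 1) deg W`
  have h2 : m * ∑ p ∈ T, (P p).natDegree ≤ (m + 1) * (wronskian A B).natDegree := by
    rw [← hsum2]
    calc m * ((m + 1) * ∑ p ∈ T, (s p).natDegree) = (m + 1) * (m * ∑ p ∈ T, (s p).natDegree) := by
          ring
      _ ≤ _ := Nat.mul_le_mul_left _ h1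
  have h3 := natDegree_wronskian_lt_add hW
  set D := max A.natDegree B.natDegree with hD
  have hA : A.natDegree ≤ D := le_max_left _ _
  have hB : B.natDegree ≤ D := le_max_right _ _
  have hPD : ∀ p, (P p).natDegree ≤ D := by
    intro p
    rw [hP]
    refine (natDegree_add_le _ _).trans (max_le ?_ ?_)
    · exact (natDegree_C_mul_le _ _).trans hA
    · exact (natDegree_C_mul_le _ _).trans hB
  -- at most one member has degree less than `D`
  have hone : ∀ p ∈ T, ∀ q ∈ T, p ≠ q → (P p).natDegree < D → D ≤ (P q).natDegree := by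
    intro p hp q hq hpq hlt
    by_contra hlt'
    push Not at hlt'
    have h0 := hdet p hp q hq hpq
    have h4 : C (p.1 * q.2 - p.2 * q.1)⁻¹ * (C p.1 * C q.2 - C p.2 * C q.1) = (1 : E[X]) := by
      rw [← C_mul, ← C_mul, ← C_sub, ← C_mul, inv_mul_cancel₀ h0, C_1]
    have hAD : A.natDegree < D := by
      have h5 : A = C (p.1 * q.2 - p.2 * q.1)⁻¹ * (C q.2 * P p - C p.2 * P q) := by
        rw [hP, hP]
        linear_combination (-A) * h4
      rw [h5]
      refine lt_of_le_of_lt (natDegree_C_mul_le _ _) ?_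
      refine lt_of_le_of_lt (natDegree_sub_le _ _) (max_lt ?_ ?_)
      · exact lt_of_le_of_lt (natDegree_C_mul_le _ _) hlt
      · exact lt_of_le_of_lt (natDegree_C_mul_le _ _) hlt'
    have hBD : B.natDegree < D := by
      have h5 : B = C (p.1 * q.2 - p.2 * q.1)⁻¹ * (C p.1 * P q - C q.1 * P p) := by
        rw [hP, hP]
        linear_combination (-B) * h4
      rw [h5]
      refine lt_of_le_of_lt (natDegree_C_mul_le _ _) ?_
      refine lt_of_le_of_lt (natDegree_sub_le _ _) (max_lt ?_ ?_)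
      · exact lt_of_le_of_lt (natDegree_C_mul_le _ _) hlt'
      · exact lt_of_le_of_lt (natDegree_C_mul_le _ _) hlt
    exact absurd hD (ne_of_gt (max_lt hAD hBD))
  by_cases hlow : ∃ p ∈ T, (P p).natDegree < D
  · obtain ⟨p, hp, hlt⟩ := hlow
    obtain ⟨q, hq, hqp⟩ := hex p
    have h4 : (T.erase p).card * D ≤ ∑ q ∈ T.erase p, (P q).natDegree := by
      rw [← smul_eq_mul]
      refine Finset.card_nsmul_le_sum _ _ _ fun q hq => ?_
      rw [Finset.mem_erase] at hq
      exact hone p hp q hq.2 hq.1.symm hlt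
    rw [Finset.card_erase_of_mem hp] at h4
    have h5 := Finset.add_sum_erase T (fun q => (P q).natDegree) hp
    have h6 : (wronskian A B).natDegree < (P p).natDegree + D := by
      have h7 : wronskian (P p) (P q) ≠ 0 := by
        rw [hWpq]
        exact mul_ne_zero (C_ne_zero.2 (hdet p hp q hq hqp.symm)) hW
      have h8 := natDegree_wronskian_lt_add h7
      rw [hWpq, natDegree_C_mul (hdet p hp q hq hqp.symm)] at h8
      have := hPD q
      omega
    obtain ⟨n, hn⟩ : ∃ n, T.card = n + 1 := ⟨T.card - 1, by omega⟩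
    rw [hn, Nat.add_sub_cancel] at h4
    rw [hn] at hT
    have h7 : (m + 2) * D ≤ m * (n * D) := by
      have h8 : m + 2 ≤ m * n := by
        have e : (n + 1) * m = m * n + m := by ring
        omega
      calc (m + 2) * D ≤ (m * n) * D := Nat.mul_le_mul_right _ h8
        _ = m * (n * D) := by ring
    have h8 : m * (n * D) + m * (P p).natDegree ≤ (m + 1) * (wronskian A B).natDegree := by
      refine le_trans ?_ h2
      rw [← h5, mul_add, add_comm (m * (P p).natDegree)]
      exact Nat.add_le_add_right (Nat.mul_le_mul_left _ h4) _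
    have h9 : (m + 1) * ((wronskian A B).natDegree + 1) ≤ (m + 1) * ((P p).natDegree + D) :=
      Nat.mul_le_mul_left _ h6
    have e1 : (m + 1) * ((wronskian A B).natDegree + 1) =
      (m + 1) * (wronskian A B).natDegree + m + 1 := by ring
    have e2 : (m + 1) * ((P p).natDegree + D) =
      m * (P p).natDegree + (P p).natDegree + m * D + D := by ring
    have e3 : (m + 2) * D = m * D + D + D := by ring
    omega
  · push Not at hlow
    have h4 : T.card * D ≤ ∑ p ∈ T, (P p).natDegree := by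
      rw [← smul_eq_mul]
      exact Finset.card_nsmul_le_sum _ _ _ hlow
    have h5 : 2 * (m + 1) * D ≤ m * ∑ p ∈ T, (P p).natDegree := by
      calc 2 * (m + 1) * D ≤ T.card * m * D := Nat.mul_le_mul_right _ hT
        _ = m * (T.card * D) := by ring
        _ ≤ _ := Nat.mul_le_mul_left _ h4
    have h6 : (m + 1) * ((wronskian A B).natDegree + 1) ≤ (m + 1) * (2 * D) :=
      Nat.mul_le_mul_left _ (by omega)
    have e1 : (m + 1) * ((wronskian A B).natDegree + 1) =
      (m + 1) * (wronskian A B).natDegree + m + 1 := by ring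
    have e2 : (m + 1) * (2 * D) = 2 * (m + 1) * D := by ring
    omega

/-- roots of a polynomial some power of which is an `ℓ`-th power -/
theorem root_ext13 {P s : E[X]} {m ℓ : ℕ} (hP : P ≠ 0) (hℓ : ℓ.Prime) (hm : ¬ ℓ ∣ m)
    (h : Associated (s ^ ℓ) (P ^ m)) : ∃ t : E[X], Associated (t ^ ℓ) P := by
  obtain ⟨a, ha⟩ := Nat.exists_mul_mod_eq_one_of_coprime
    ((hℓ.coprime_iff_not_dvd.2 hm).symm) hℓ.one_lt
  obtain ⟨b, hb⟩ : ∃ b, m * a = ℓ * b + 1 := ⟨m * a / ℓ, by
    have := Nat.div_add_mod (m * a) ℓ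
    omega⟩
  have h1 : Associated ((s ^ a) ^ ℓ) ((P ^ b) ^ ℓ * P) := by
    have h2 := h.pow_pow (n := a)
    rw [← pow_mul, ← pow_mul, hb, mul_comm ℓ a, mul_comm ℓ b] at h2
    rw [← pow_mul, ← pow_mul, ← pow_succ]
    exact h2
  have h2 : P ^ b ∣ s ^ a := by
    refine (IsIntegrallyClosed.pow_dvd_pow_iff hℓ.ne_zero).1 ?_
    exact (dvd_mul_right _ _).trans h1.symm.dvd
  obtain ⟨t, ht⟩ := h2
  rw [ht, mul_pow] at h1
  exact ⟨t, h1.of_mul_left (Associated.refl _) (pow_ne_zero _ (pow_ne_zero _ hP))⟩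

end core

end Pool.Agent.PDL
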