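import Pool.Agent.Helper13.PD.TRX
import Pool.Agent.Helper45.PD.Defs2

/-!
# Project PD, block TRL: the transfer for `y ^ ℓ = c f(x)`
-/

set_option autoImplicit false
set_option linter.unusedSectionVars false

namespace Pool.Agent.PDL.TRL13

open VC IntermediateField NumberField Pool.Agent.SC Pool.Agent.Helper91.Sect
open Pool.Agent.L (L0 MM)
open Pool.Agent.LN (Geo Act GoodCurve)
open Pool.Agent.M (Moves)

noncomputable section

section main

variable {k K0 E U : Type} [Field k] [NumberField k] [Field K0] [Field E] [Field U]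
  [Algebra k K0] [Algebra k E] [Algebra E U] [Algebra K0 U] [Algebra k U] [IsScalarTower k E U]
  [IsScalarTower k K0 U] {n : ℕ} {x₀ h : K0} {r : U} (hn : 2 ≤ n) (G : Geo k K0 E U n h r)
  {K : Type} [Field K] [Algebra k K] [Algebra K0 K] [IsScalarTower k K0 K] {y : K}
  {c : k} (hy : y ^ n = algebraMap k K c * algebraMap K0 K h)
  {j : U →+* AlgebraicClosure K}
  (hj1 : ∀ x : K0, j (algebraMap K0 U x) = algebraMap K (AlgebraicClosure K) (algebraMap K0 K x))
  (hj2 : ∀ z : E, IsAlgebraic k (j (algebraMap E U z)))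
  (hj3 : ∀ z : AlgebraicClosure K, IsAlgebraic k z → ∃ z' : E, j (algebraMap E U z') = z)

theorem mem_L0 (x : K0) : algebraMap K0 U x ∈ L0 E K0 (U := U) :=
  IntermediateField.subset_adjoin _ _ ⟨x, rfl⟩

theorem L0_le_YL : L0 E K0 (U := U) ≤ YL E K0 n (U := U) := fun _ hu =>
  IntermediateField.subset_adjoin _ _ (Or.inl hu)

theorem mem_YL {w : U} (hw : w ^ n ∈ L0 E K0 (U := U)) : w ∈ YL E K0 n (U := U) :=
  IntermediateField.subset_adjoin _ _ (Or.inr hw)

include G in
theorem MM_le_YL : MM E K0 r ≤ YL E K0 n (U := U) := by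
  rw [MM, IntermediateField.adjoin_le_iff]
  rintro z (⟨x, rfl⟩ | hz)
  · exact L0_le_YL (mem_L0 x)
  · rw [Set.mem_singleton_iff] at hz
    rw [hz]
    refine mem_YL ?_
    rw [G.rpow]
    exact mem_L0 h

include hn G hy hj1 hj3 in
/-- `y` is `r` times a constant -/
theorem j_r13 : ∃ d : E, j (algebraMap E U d * r) = algebraMap K (AlgebraicClosure K) y := by
  have hr0 : r ≠ 0 := by
    rintro rfl
    refine G.rnot 1 one_pos (by omega) ?_
    rw [pow_one]
    exact zero_mem _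
  have hjr : j r ≠ 0 := (map_ne_zero j).2 hr0
  have h1 : (algebraMap K (AlgebraicClosure K) y / j r) ^ n =
      algebraMap K (AlgebraicClosure K) (algebraMap k K c) := by
    rw [div_pow, ← map_pow, ← map_pow, hy, G.rpow, hj1, map_mul]
    refine mul_div_cancel_right₀ _ ?_
    rw [← hj1, ← G.rpow, map_pow]
    exact pow_ne_zero _ hjr
  have h2 : IsAlgebraic k (algebraMap K (AlgebraicClosure K) y / j r) := by
    refine IsAlgebraic.of_pow (n := n) (by omega) ?_
    rw [h1, ← IsScalarTower.algebraMap_apply k K (AlgebraicClosure K)]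
    exact isAlgebraic_algebraMap c
  obtain ⟨d, hd⟩ := hj3 _ h2
  refine ⟨d, ?_⟩
  rw [map_mul, hd, div_mul_cancel₀ _ hjr]

include hj1 hj3 in
/-- `kbar(x)` is in the image of `L0` -/
theorem kb1_sub (z : AlgebraicClosure K) (hz : z ∈ KB1 k (algebraMap K0 K x₀)) :
    ∃ u ∈ L0 E K0 (U := U), j u = z := by
  have h1 : KB1 k (algebraMap K0 K x₀) ≤ (L0 E K0 (U := U)).toSubfield.map j := by
    rw [KB1, Subfield.closure_le]
    rintro z (hz | hz)
    · obtain ⟨z', rfl⟩ := hj3 z hz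
      exact ⟨_, (L0 E K0 (U := U)).algebraMap_mem z', rfl⟩
    · refine ⟨algebraMap K0 U x₀, mem_L0 x₀, ?_⟩
      rw [hz]; exact hj1 x₀
  obtain ⟨u, hu, hu'⟩ := h1 hz
  exact ⟨u, hu, hu'⟩

include hn G hy hj1 hj3 in
/-- `kbar(x, y)` is in the image of `M` -/
theorem kb2_sub (z : AlgebraicClosure K) (hz : z ∈ KB2 k (algebraMap K0 K x₀) y) :
    ∃ u ∈ MM E K0 r, j u = z := by
  have h1 : KB2 k (algebraMap K0 K x₀) y ≤ (MM E K0 r).toSubfield.map j := by
    rw [KB2, Subfield.closure_le]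
    rintro z (hz | hz | hz)
    · obtain ⟨z', rfl⟩ := hj3 z hz
      exact ⟨_, (MM E K0 r).algebraMap_mem z', rfl⟩
    · refine ⟨algebraMap K0 U x₀, ?_, ?_⟩
      · exact IntermediateField.subset_adjoin _ _ (Or.inl ⟨x₀, rfl⟩)
      · rw [hz]; exact hj1 x₀
    · obtain ⟨d, hd⟩ := j_r13 hn G hy hj1 hj3
      refine ⟨algebraMap E U d * r, ?_, ?_⟩
      · exact mul_mem ((MM E K0 r).algebraMap_mem d)
          (IntermediateField.subset_adjoin _ _ (Or.inr rfl))
      · rw [hz]; exact hd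
  obtain ⟨u, hu, hu'⟩ := h1 hz
  exact ⟨u, hu, hu'⟩

include hj2 hj3 in
/-- valuation rings of `U` extend -/
theorem exists_ext13 (W : Place E U) : ∃ V : ValuationSubring (AlgebraicClosure K),
    (∀ u : U, j u ∈ V ↔ u ∈ W.ring) ∧ ∀ z : AlgebraicClosure K, IsAlgebraic k z → z ∈ V := by
  let _ : Algebra U (AlgebraicClosure K) := j.toAlgebra
  let _ : Algebra E (AlgebraicClosure K) := (j.comp (algebraMap E U)).toAlgebra
  have hst : IsScalarTower E U (AlgebraicClosure K) := IsScalarTower.of_algebraMap_eq fun _ => rfl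
  obtain ⟨V, hV⟩ := _root_.SC.exists_place_over (K := E) (M := U) (N := AlgebraicClosure K) W
  refine ⟨V.ring, hV, fun z hz => ?_⟩
  obtain ⟨z', rfl⟩ := hj3 z hz
  exact V.algebraMap_mem z'

include hn G hy hj1 hj2 hj3 in
/-- the roots are in the image of `YL` -/
theorem rt_sub13 {w : AlgebraicClosure K} (hw : IsRt1 k (algebraMap K0 K x₀) y n w) :
    ∃ u ∈ YL E K0 n (U := U), j u = w := by
  have hn0 : 0 < n := by omega
  obtain ⟨u, hu, hu1, hP⟩ := hw
  obtain ⟨u0, hu0, hju⟩ := kb1_sub (E := E) (x₀ := x₀) hj1 hj3 u hu1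
  by_cases hw0 : w = 0
  · exact ⟨0, zero_mem _, by rw [map_zero, hw0]⟩
  have hu00 : u0 ≠ 0 := by
    rintro rfl
    rw [map_zero] at hju
    rw [← hju] at hu
    exact pow_ne_zero n hw0 hu.symm
  obtain ⟨w0, hw0'⟩ := G.cover.root u0 n hn0 (by
    intro W hW
    by_cases hWt : W = ⊤
    · refine ⟨1, ?_⟩
      rw [one_pow, map_one]
      refine le_antisymm ?_ ?_
      · rw [ValuationSubring.valuation_le_one_iff, hWt]
        trivial
      · have h1 : W.valuation u0⁻¹ ≤ 1 := by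
          rw [ValuationSubring.valuation_le_one_iff, hWt]
          trivial
        rw [map_inv₀] at h1
        exact (inv_le_one₀ (zero_lt_iff.2 ((Valuation.ne_zero_iff _).2 hu00))).1 h1
    obtain ⟨V, hV1, hV2⟩ := exists_ext13 (k := k) hj2 hj3 (⟨W, hW, hWt⟩ : Place E U)
    obtain ⟨z, hz⟩ := hP (V.comap (KB2 k (algebraMap K0 K x₀) y).subtype) fun z hz => hV2 _ hz
    obtain ⟨z0, hz0, hjz⟩ := kb2_sub (x₀ := x₀) hn G hy hj1 hj3 z z.2
    refine ⟨z0, ?_⟩
    have hu1 : u ≠ 0 := by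
      rintro rfl
      exact pow_ne_zero n hw0 hu.symm
    have hz1 : z ≠ 0 := by
      rintro rfl
      rw [map_zero, zero_pow hn0.ne'] at hz
      exact hu1 ((map_eq_zero _).1 hz)
    have hz00 : z0 ≠ 0 := by
      rintro rfl
      rw [map_zero] at hjz
      exact hz1 (Subtype.ext hjz.symm)
    -- quotients are units
    have key : ∀ a b : KB2 k (algebraMap K0 K x₀) y, ∀ a0 b0 : U, j a0 = a → j b0 = b → b ≠ 0 →
        b0 ≠ 0 →
        (V.comap (KB2 k (algebraMap K0 K x₀) y).subtype).valuation a ≤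
          (V.comap (KB2 k (algebraMap K0 K x₀) y).subtype).valuation b →
        W.valuation a0 ≤ W.valuation b0 := by
      intro a b a0 b0 ha hb hb0 hb00 hab
      have h1 : a / b ∈ V.comap (KB2 k (algebraMap K0 K x₀) y).subtype := by
        rw [← ValuationSubring.valuation_le_one_iff, map_div₀]
        exact div_le_one_of_le₀ hab zero_le
      rw [ValuationSubring.mem_comap] at h1
      have h2 : (KB2 k (algebraMap K0 K x₀) y).subtype (a / b) = j (a0 / b0) := by
        rw [map_div₀, map_div₀, ha, hb]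
        rfl
      rw [h2, hV1] at h1
      change a0 / b0 ∈ W at h1
      rw [← ValuationSubring.valuation_le_one_iff, map_div₀,
        div_le_one₀ (zero_lt_iff.2 ((Valuation.ne_zero_iff _).2 hb00))] at h1
      exact h1
    have hjzm : j (z0 ^ n) = ((z ^ n : KB2 k (algebraMap K0 K x₀) y) : AlgebraicClosure K) := by
      rw [map_pow, hjz]
      rfl
    refine le_antisymm ?_ ?_
    · exact key u (z ^ n) u0 (z0 ^ n) hju hjzm (pow_ne_zero n hz1) (pow_ne_zero n hz00)
        (by rw [map_pow]; exact hz.le)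
    · exact key (z ^ n) u (z0 ^ n) u0 hjzm hju hu1 hu00 (by rw [map_pow]; exact hz.ge))
  -- the quotient is a root of unity
  have hw00 : w0 ≠ 0 := by
    rintro rfl
    rw [zero_pow hn0.ne'] at hw0'
    exact hu00 hw0'.symm
  have hj0 : j w0 ≠ 0 := (map_ne_zero j).2 hw00
  have h1 : (w / j w0) ^ n = 1 := by
    rw [div_pow, ← map_pow, hw0', hju, hu]
    exact div_self (pow_ne_zero n hw0)
  have h2 : IsAlgebraic k (w / j w0) := by
    refine IsAlgebraic.of_pow hn0 ?_
    rw [h1]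
    exact isAlgebraic_one
  obtain ⟨ζ, hζ⟩ := hj3 _ h2
  refine ⟨algebraMap E U ζ * w0, ?_, ?_⟩
  · refine mul_mem ((YL E K0 n (U := U)).algebraMap_mem ζ) (mem_YL ?_)
    rw [hw0']
    exact hu0
  · rw [map_mul, hζ, div_mul_cancel₀ _ hj0]

include hn G hy hj1 hj2 hj3 in
/-- the level is in the image of `YL` -/
theorem lev_sub13 {z : AlgebraicClosure K}
    (hz : z ∈ Lev1 k (algebraMap K0 K x₀) y n) : ∃ u ∈ YL E K0 n (U := U), j u = z := by
  have h1 : Lev1 k (algebraMap K0 K x₀) y n ≤ (YL E K0 n (U := U)).toSubfield.map j := by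
    rw [Lev1, Subfield.closure_le]
    rintro z (hz | hz)
    · obtain ⟨u, hu, hu'⟩ := kb2_sub (x₀ := x₀) hn G hy hj1 hj3 z (Subfield.subset_closure hz)
      exact ⟨u, MM_le_YL G hu, hu'⟩
    · obtain ⟨u, hu, hu'⟩ := rt_sub13 (x₀ := x₀) hn G hy hj1 hj2 hj3 hz
      exact ⟨u, hu, hu'⟩
  obtain ⟨u, hu, hu'⟩ := h1 hz
  exact ⟨u, hu, hu'⟩

/-- `YL` is stable -/
theorem stab13 (T : U ≃+* U) (hT1 : ∀ x : K0, T (algebraMap K0 U x) = algebraMap K0 U x)
    (hT2 : ∀ e : E, ∃ e' : E, T (algebraMap E U e) = algebraMap E U e') :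
    ∀ z ∈ YL E K0 n (U := U), T z ∈ YL E K0 n (U := U) := by
  have h0 : (L0 E K0 (U := U)).toSubfield ≤ (L0 E K0 (U := U)).toSubfield.comap (T : U →+* U) := by
    conv_lhs => rw [L0, IntermediateField.adjoin_toSubfield]
    rw [Subfield.closure_le]
    rintro z (⟨e, rfl⟩ | ⟨x, rfl⟩)
    · obtain ⟨e', he'⟩ := hT2 e
      change T (algebraMap E U e) ∈ L0 E K0 (U := U)
      rw [he']
      exact IntermediateField.algebraMap_mem _ e'
    · change T (algebraMap K0 U x) ∈ L0 E K0 (U := U)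
      rw [hT1]
      exact mem_L0 x
  have h1 : (YL E K0 n (U := U)).toSubfield ≤
      (YL E K0 n (U := U)).toSubfield.comap (T : U →+* U) := by
    conv_lhs => rw [YL, IntermediateField.adjoin_toSubfield]
    rw [Subfield.closure_le]
    rintro z (⟨e, rfl⟩ | hz | hz)
    · obtain ⟨e', he'⟩ := hT2 e
      change T (algebraMap E U e) ∈ YL E K0 n (U := U)
      rw [he']
      exact IntermediateField.algebraMap_mem _ e'
    · exact L0_le_YL (h0 hz)
    · refine mem_YL (w := T z) ?_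
      rw [← map_pow]
      exact h0 hz
  exact fun z hz => h1 hz

include hn G hy hj1 hj2 hj3 in
/-- **Agreement** from a fixed place. -/
theorem agr13 {Φ : (E ≃ₐ[k] E) →* (U ≃+* U)} (hΦ : Act (K0 := K0) n r c Φ)
    {s : GaloisSection k K} (hj4 : ∀ u, j u ∈ Kur k K)
    (hj5 : ∀ g : Gk k K, ∃ σ : E ≃ₐ[k] E, ∀ (u : U) (hu : j u ∈ Kur k K),
      (s.toHom g ⟨j u, hu⟩ : AlgebraicClosure K) = j (Φ σ u))
    {Q : Place E (YL E K0 n (U := U))} {u₀ : K0} (hQ : PoleAt u₀ Q)
    (hQΦ : ∀ g : E ≃ₐ[k] E, Moves (Φ g) _ Q Q) :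
    AgrAt s (algebraMap K0 K x₀) y n (algebraMap K0 K u₀) := by
  obtain ⟨W, hW⟩ := _root_.SC.exists_place_over (K := E) (M := YL E K0 n (U := U)) (N := U) Q
  obtain ⟨V, hV1, hV2⟩ := exists_ext13 (k := k) hj2 hj3 W
  refine ⟨V, hV2, ?_, ?_⟩
  · rw [← hj1, hV1]
    have hx : algebraMap K0 U u₀ ∈ YL E K0 n (U := U) := L0_le_YL (mem_L0 u₀)
    intro h1
    exact hQ hx ((hW ⟨_, hx⟩).1 h1)
  · intro w hw
    obtain ⟨u, hu, rfl⟩ := lev_sub13 (x₀ := x₀) hn G hy hj1 hj2 hj3 hw
    refine ⟨hj4 u, fun g => ?_⟩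
    obtain ⟨σ, hσ⟩ := hj5 g
    have hT : Φ σ u ∈ YL E K0 n (U := U) := stab13 (Φ σ) (hΦ.fixK σ)
      (fun e => ⟨σ e, hΦ.const σ e⟩) u hu
    rw [hσ, hV1, hV1]
    have h1 := hQΦ σ u hu hT
    rw [← hW, ← hW] at h1
    exact h1

end main

/-! ## The rational function field -/

open Polynomial

theorem aeval_X13 {k : Type} [Field k] (f : k[X]) :
    aeval (algebraMap k[X] (FractionRing k[X]) X) f = algebraMap k[X] (FractionRing k[X]) f := by
  rw [aeval_algebraMap_apply, aeval_X_left_apply]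

theorem adjoin_X13 {k : Type} [Field k] :
    IntermediateField.adjoin k {algebraMap k[X] (FractionRing k[X]) X} = ⊤ := by
  rw [eq_top_iff]
  intro z _
  obtain ⟨p, q, hq, rfl⟩ := IsFractionRing.div_surjective (A := k[X]) z
  have h1 : ∀ p : k[X], algebraMap k[X] (FractionRing k[X]) p ∈
      IntermediateField.adjoin k {algebraMap k[X] (FractionRing k[X]) X} := by
    intro p
    rw [← aeval_X13 p]
    exact IntermediateField.algebra_adjoin_le_adjoin k _
      (Polynomial.aeval_mem_adjoin_singleton (R := k) _)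
  exact div_mem (h1 p) (h1 q)

theorem trans_X13 {k : Type} [Field k] :
    Transcendental k (algebraMap k[X] (FractionRing k[X]) X) := by
  rw [transcendental_iff]
  intro p hp
  rw [aeval_X13] at hp
  exact (map_eq_zero_iff _ (IsFractionRing.injective k[X] (FractionRing k[X]))).1 hp

end

end Pool.Agent.PDL.TRL13

namespace Pool.Agent.PDL

open VC Polynomial NumberField Pool.Agent.SC Pool.Agent.Helper91.Sect TRL13

/-- BLOCK TRL. -/
theorem tRL : StmtTRL := by
  intro k _ _ ℓ f hℓ hg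
  obtain ⟨E, U, _, _, _, _, _, _, _, _, r, G, hsec⟩ :=
    trZ k (FractionRing k[X]) ℓ (algebraMap k[X] (FractionRing k[X]) f) hℓ.two_le hg
  have G' := G
  rw [← aeval_X13] at G'
  refine ⟨E, U, inferInstance, inferInstance, inferInstance, inferInstance, inferInstance,
    inferInstance, inferInstance, inferInstance, r, ⟨G', adjoin_X13, trans_X13⟩,
    fun c hc0 K _ _ x y hx hy s => ?_⟩
  have hinj : Function.Injective ((aeval x : k[X] →ₐ[k] K) : k[X] →+* K) := by
    have := transcendental_iff_injective.1 hx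
    exact this
  let φ : FractionRing k[X] →+* K := IsFractionRing.lift hinj
  let _ : Algebra (FractionRing k[X]) K := φ.toAlgebra
  have hφ : ∀ p : k[X], algebraMap (FractionRing k[X]) K (algebraMap k[X] (FractionRing k[X]) p) =
      aeval x p := fun p => IsFractionRing.lift_algebraMap hinj p
  have hst' : IsScalarTower k (FractionRing k[X]) K := by
    refine IsScalarTower.of_algebraMap_eq fun a => ?_
    have e1 : algebraMap k (FractionRing k[X]) a = algebraMap k[X] (FractionRing k[X]) (C a) := rfl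
    rw [e1, hφ, aeval_C]
  obtain ⟨Φ, hΦ, j, hj1, hj2, hj3, hj4, hj5⟩ := hsec c hc0 K y (by rw [hφ, hy]) s
  have hx₀ : algebraMap (FractionRing k[X]) K (algebraMap k[X] (FractionRing k[X]) X) = x := by
    rw [hφ, aeval_X]
  refine ⟨Φ, hΦ, fun w hw => ?_, fun Q hQΦ => ⟨fun hQ => ?_, fun α hQ => ?_⟩⟩
  · rw [← hx₀] at hw
    obtain ⟨u, hu, rfl⟩ := lev_sub13 (x₀ := algebraMap k[X] (FractionRing k[X]) X) hℓ.two_le G
      (by rw [hφ, hy]) hj1 hj2 hj3 hw
    exact hj4 u
  · have h2 := agr13 (x₀ := algebraMap k[X] (FractionRing k[X]) X) hℓ.two_le G (by rw [hφ, hy])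
      hj1 hj2 hj3 hΦ (s := s) hj4 hj5 hQ hQΦ
    rwa [hx₀] at h2
  · have h2 := agr13 (x₀ := algebraMap k[X] (FractionRing k[X]) X) hℓ.two_le G (by rw [hφ, hy])
      hj1 hj2 hj3 hΦ (s := s) hj4 hj5 hQ hQΦ
    rwa [map_inv₀, map_sub, hx₀, ← IsScalarTower.algebraMap_apply] at h2

end Pool.Agent.PDL
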